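import Mathlib

/-! The algebraic core: `P(X) P(-X)` is a truncation of `x / sin x`. -/

namespace Pool.Agent.GD71
open Finset

/-- A field of characteristic zero has a valuation ring in which `2` is not invertible. -/
lemma exists_two (F : Type*) [Field F] [CharZero F] :
    ∃ B : ValuationSubring F, B.valuation (2 : F) < 1 := by
  classical
  set A : Subring F := (integralClosure ℤ F).toSubring with hA
  have hint : IsIntegrallyClosedIn A F := by
    rw [Subring.isIntegrallyClosedIn_iff]
    intro x hx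
    have h1 : IsIntegral (integralClosure ℤ F) x := hx
    exact isIntegral_trans x h1
  have hx : (1 / 2 : F) ∉ A := by
    intro h
    have h1 : IsIntegral ℤ (algebraMap ℚ F (1 / 2)) := by
      have h2 : IsIntegral ℤ (1 / 2 : F) := h
      simpa using h2
    rw [isIntegral_algebraMap_iff (algebraMap ℚ F).injective] at h1
    obtain ⟨n, hn⟩ := IsIntegrallyClosed.isIntegral_iff.1 h1
    have h3 : (n : ℚ) * 2 = 1 := by
      have : (n : ℚ) = 1 / 2 := by simpa using hn
      rw [this]; norm_num
    have h4 : n * 2 = 1 := by exact_mod_cast h3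
    omega
  obtain ⟨V, -, hxV⟩ := Subring.exists_le_valuationSubring_of_isIntegrallyClosedIn hx
  refine ⟨V, ?_⟩
  have h1 : 1 < V.valuation (1 / 2 : F) := by
    rw [← not_le, V.valuation_le_one_iff]
    exact hxV
  have h2 : V.valuation (1 / 2 : F) * V.valuation (2 : F) = 1 := by
    rw [← map_mul]
    norm_num
  by_contra h3
  have h4 : 1 < V.valuation (1 / 2 : F) * V.valuation (2 : F) :=
    lt_of_lt_of_le h1 (le_mul_of_one_le_right' (not_lt.1 h3))
  rw [h2] at h4
  exact lt_irrefl _ h4

lemma val_int {F : Type*} [Field F] (B : ValuationSubring F) (a : ℤ) :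
    B.valuation (a : F) ≤ 1 := by
  rw [B.valuation_le_one_iff]
  exact intCast_mem B a

lemma val_odd {F : Type*} [Field F] (B : ValuationSubring F)
    (hB : B.valuation (2 : F) < 1) (b : ℤ) (hb : Odd b) : B.valuation (b : F) = 1 := by
  obtain ⟨m, rfl⟩ := hb
  have h1 : B.valuation ((2 : F) * (m : F)) < 1 := by
    rw [map_mul]
    exact mul_lt_one_of_lt_of_le hB (val_int B m)
  have h2 : (((2 * m + 1 : ℤ)) : F) = 1 + 2 * (m : F) := by push_cast; ring
  rw [h2]
  exact B.valuation.map_one_add_of_lt h1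

lemma val_two {F : Type*} [Field F] [CharZero F] (B : ValuationSubring F)
    (hB : B.valuation (2 : F) < 1) (q : ℚ) (a b : ℤ) (hb : Odd b) (h : q = 2 * a / b) :
    B.valuation (q : F) < 1 := by
  have h1 : (q : F) = 2 * (a : F) / (b : F) := by rw [h]; push_cast; ring
  rw [h1, map_div₀, val_odd B hB b hb, div_one, map_mul]
  exact mul_lt_one_of_lt_of_le hB (val_int B a)

/-- the case `p = 0` -/
lemma alg_zero {F : Type*} [Field F] (κ : ℕ) (h : ℕ → F)
    (hrel : ∀ l ≤ κ, 1 ≤ l → ∑ i ∈ range (2 * l + 1), (-1 : F) ^ i * h i * h (2 * l - i) = 0)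
    (hvan : ∀ i, κ < i → i ≤ 2 * κ → h i = 0) :
    ∀ i, 1 ≤ i → i ≤ κ → h i = 0 := by
  have key : ∀ d i, 1 ≤ i → i ≤ κ → κ - i = d → h i = 0 := by
    intro d
    induction d using Nat.strong_induction_on with
    | _ d ih =>
      intro i hi1 hi2 hd
      have hbig : ∀ b, i < b → b ≤ 2 * κ → h b = 0 := by
        intro b hb hb2
        rcases le_or_gt b κ with h1 | h1
        · exact ih (κ - b) (by omega) b (by omega) h1 rfl
        · exact hvan b h1 hb2
      have h1 := hrel i hi2 hi1
      rw [Finset.sum_eq_single i] at h1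
      · have h2 : 2 * i - i = i := by omega
        rw [h2] at h1
        have h3 : h i * h i = 0 := by
          have h4 : ((-1 : F) ^ i) ≠ 0 := pow_ne_zero _ (neg_ne_zero.2 one_ne_zero)
          rw [mul_assoc] at h1
          exact (mul_eq_zero.1 h1).resolve_left h4
        exact mul_self_eq_zero.1 h3
      · intro a ha hai
        rw [Finset.mem_range] at ha
        rcases lt_or_gt_of_ne hai with h2 | h2
        · rw [hbig (2 * i - a) (by omega) (by omega), mul_zero]
        · rw [hbig a h2 (by omega), mul_zero, zero_mul]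
      · intro h2
        exact absurd (Finset.mem_range.2 (by omega)) h2
  intro i h1 h2
  exact key _ i h1 h2 rfl

theorem alg {F : Type*} [Field F] [CharZero F] (κ : ℕ) (hκ : 1 ≤ κ) (c : ℕ → ℚ) (_hc0 : c 0 = 1)
    (hc1 : c 1 = 1 / 6) (hpos : ∀ l, c l ≠ 0)
    (htwo : ∀ l, 1 ≤ l → ∃ a b : ℤ, Odd b ∧ (4 : ℚ) ^ l * c l = 2 * a / b)
    (h : ℕ → F) (p : F) (h0 : h 0 = 1)
    (hrel : ∀ l ≤ κ, ∑ i ∈ range (2 * l + 1), (-1 : F) ^ i * h i * h (2 * l - i) =
      (c l : F) * p ^ (2 * l))
    (hvan : ∀ i, κ < i → i ≤ 2 * κ → h i = 0) (hor : h κ = 0 ∨ h 1 = 0) :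
    p = 0 ∧ ∀ i, 1 ≤ i → i ≤ κ → h i = 0 := by
  classical
  suffices hp : p = 0 by
    refine ⟨hp, alg_zero κ h (fun l hl hl1 => ?_) hvan⟩
    rw [hrel l hl, hp, zero_pow (by omega), mul_zero]
  rcases hor with hor | hor
  · -- the top coefficient vanishes
    have h1 := hrel κ le_rfl
    rw [Finset.sum_eq_zero] at h1
    · rcases mul_eq_zero.1 h1.symm with h2 | h2
      · exact absurd (by exact_mod_cast h2) (hpos κ)
      · exact pow_eq_zero_iff (by omega) |>.1 h2
    · intro i hi
      rw [Finset.mem_range] at hi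
      rcases lt_trichotomy i κ with h2 | h2 | h2
      · rw [hvan (2 * κ - i) (by omega) (by omega), mul_zero]
      · rw [h2, hor, mul_zero, zero_mul]
      · rw [hvan i h2 (by omega), mul_zero, zero_mul]
  · by_contra hp
    obtain ⟨B, hB⟩ := exists_two F
    set v := B.valuation with hv
    set q : ℕ → F := fun i => h i * (2 / p) ^ i with hq
    have hq0 : q 0 = 1 := by simp [hq, h0]
    have hq1 : q 1 = 0 := by simp [hq, hor]
    have hqv : ∀ i, κ < i → i ≤ 2 * κ → q i = 0 := by
      intro i h1 h2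
      simp only [hq, hvan i h1 h2, zero_mul]
    have hqrel : ∀ l ≤ κ, ∑ i ∈ range (2 * l + 1), (-1 : F) ^ i * q i * q (2 * l - i) =
        (((4 : ℚ) ^ l * c l : ℚ) : F) := by
      intro l hl
      have h1 : ∑ i ∈ range (2 * l + 1), (-1 : F) ^ i * q i * q (2 * l - i) =
          (2 / p) ^ (2 * l) * ∑ i ∈ range (2 * l + 1), (-1 : F) ^ i * h i * h (2 * l - i) := by
        rw [Finset.mul_sum]
        refine Finset.sum_congr rfl fun i hi => ?_
        rw [Finset.mem_range] at hi
        have h2 : (2 / p) ^ (2 * l) = (2 / p) ^ i * (2 / p) ^ (2 * l - i) := by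
          rw [← pow_add]
          congr 1
          omega
        simp only [hq]
        rw [h2]
        ring
      rw [h1, hrel l hl, div_pow]
      have h3 : p ^ (2 * l) ≠ 0 := pow_ne_zero _ hp
      have h4 : (2 : F) ^ (2 * l) = 4 ^ l := by
        rw [pow_mul]
        norm_num
      rw [h4]
      push_cast
      field_simp
    have hsmall : ∀ l, 1 ≤ l → v (((4 : ℚ) ^ l * c l : ℚ) : F) < 1 := by
      intro l hl
      obtain ⟨a, b, hb, hab⟩ := htwo l hl
      exact val_two B hB _ a b hb hab
    have hlt : ∀ i, 1 ≤ i → i ≤ κ → v (q i) < 1 := by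
      by_contra hcon
      push Not at hcon
      obtain ⟨i₂, hi1, hi2, hi3⟩ := hcon
      obtain ⟨i₁, hi₁, hmax⟩ := Finset.exists_max_image (Finset.Icc 1 κ) (fun i => v (q i))
        ⟨i₂, Finset.mem_Icc.2 ⟨hi1, hi2⟩⟩
      set M := v (q i₁) with hM
      have hM1 : 1 ≤ M := hi3.trans (hmax i₂ (Finset.mem_Icc.2 ⟨hi1, hi2⟩))
      have hM0 : 0 < M := lt_of_lt_of_le zero_lt_one hM1
      set T := (Finset.Icc 1 κ).filter (fun i => v (q i) = M) with hT
      have hTne : T.Nonempty := ⟨i₁, Finset.mem_filter.2 ⟨hi₁, rfl⟩⟩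
      obtain ⟨i₀, hi₀, hmax0⟩ := Finset.exists_max_image T id hTne
      obtain ⟨hi₀a, hi₀b⟩ := Finset.mem_filter.1 hi₀
      rw [Finset.mem_Icc] at hi₀a
      have hle : ∀ a, a ≤ 2 * κ → v (q a) ≤ M := by
        intro a ha
        rcases Nat.eq_zero_or_pos a with h1 | h1
        · rw [h1, hq0, map_one]; exact hM1
        · rcases le_or_gt a κ with h2 | h2
          · exact hmax a (Finset.mem_Icc.2 ⟨h1, h2⟩)
          · rw [hqv a h2 ha, map_zero]; exact zero_le
      have hlt' : ∀ a, i₀ < a → a ≤ 2 * κ → v (q a) < M := by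
        intro a ha ha2
        rcases le_or_gt a κ with h2 | h2
        · refine lt_of_le_of_ne (hle a ha2) fun h3 => ?_
          have h4 := hmax0 a (Finset.mem_filter.2 ⟨Finset.mem_Icc.2 ⟨by omega, h2⟩, h3⟩)
          simp only [id] at h4
          omega
        · rw [hqv a h2 ha2, map_zero]; exact hM0
      have hsum := hqrel i₀ hi₀a.2
      rw [← Finset.add_sum_erase _ _ (Finset.mem_range.2 (by omega : i₀ < 2 * i₀ + 1))] at hsum
      have hself : 2 * i₀ - i₀ = i₀ := by omega
      rw [hself] at hsum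
      have hneg : ∀ i : ℕ, v ((-1 : F) ^ i) = 1 := by
        intro i
        rw [map_pow, Valuation.map_neg, map_one, one_pow]
      have hmain : v ((-1 : F) ^ i₀ * q i₀ * q i₀) = M * M := by
        rw [map_mul, map_mul, hneg, one_mul, hi₀b]
      have hrest : v (∑ i ∈ (range (2 * i₀ + 1)).erase i₀, (-1 : F) ^ i * q i * q (2 * i₀ - i)) <
          M * M := by
        refine Valuation.map_sum_lt v (mul_pos hM0 hM0).ne' fun i hi => ?_
        rw [Finset.mem_erase, Finset.mem_range] at hi
        rw [map_mul, map_mul, hneg, one_mul]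
        rcases lt_or_gt_of_ne hi.1 with h1 | h1
        · exact mul_lt_mul_of_le_of_lt_of_nonneg_of_pos (hle i (by omega)) (hlt' (2 * i₀ - i) (by omega) (by omega)) zero_le hM0
        · exact mul_lt_mul_of_lt_of_le_of_nonneg_of_pos (hlt' i h1 (by omega)) (hle (2 * i₀ - i) (by omega)) zero_le hM0
      have htot : v (((-1 : F) ^ i₀ * q i₀ * q i₀) +
          ∑ i ∈ (range (2 * i₀ + 1)).erase i₀, (-1 : F) ^ i * q i * q (2 * i₀ - i)) = M * M := by
        rw [Valuation.map_add_eq_of_lt_left v (by rw [hmain]; exact hrest), hmain]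
      rw [hsum] at htot
      have h1 := hsmall i₀ hi₀a.1
      rw [htot] at h1
      exact absurd (one_le_mul hM1 hM1) (not_le.2 h1)
    have h2 := hqrel 1 hκ
    rw [hc1] at h2
    simp only [mul_one, Finset.sum_range_succ, Finset.sum_range_zero, hq0, hq1] at h2
    norm_num at h2
    have h3 : q 2 = 1 / 3 := by
      have h4 : (2 : F) * q 2 = 2 / 3 := by linear_combination h2
      have h5 : (2 : F) ≠ 0 := two_ne_zero
      have h6 : (3 : F) ≠ 0 := three_ne_zero
      field_simp at h4 ⊢
      linear_combination h4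
    rcases Nat.lt_or_ge κ 2 with h4 | h4
    · rw [hqv 2 h4 (by omega)] at h3
      norm_num at h3
    · have h5 := hlt 2 (by norm_num) h4
      rw [h3, map_div₀, map_one] at h5
      have h6 : v ((3 : ℤ) : F) = 1 := val_odd B hB 3 (by decide)
      have h7 : v (3 : F) = 1 := by simpa using h6
      rw [h7, div_one] at h5
      exact lt_irrefl _ h5

end Pool.Agent.GD71
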