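import Mathlib
import Pool.Agent.Lib.GammaDerivs

/-! Derivatives of the Gamma function at positive integers: definitions. -/

namespace Pool.Agent.GD71

/-- `g i = Γ⁽ⁱ⁾(1) / i!`. -/
noncomputable def g (i : ℕ) : ℝ := iteratedDeriv i Real.Gamma 1 / (i.factorial : ℝ)

/-- `E n j` is the coefficient of `X ^ j` in `∏_{i = 1}^n (X + i)`. -/
def E : ℕ → ℕ → ℚ
  | 0, 0 => 1
  | 0, _ + 1 => 0
  | n + 1, 0 => ((n : ℚ) + 1) * E n 0
  | n + 1, j + 1 => ((n : ℚ) + 1) * E n (j + 1) + E n j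

/-- `ζ(j)`, as a real series. -/
noncomputable def zeta (j : ℕ) : ℝ := ∑' i : ℕ, 1 / ((i : ℝ) + 1) ^ j

/-- the coefficient of `X ^ (2 l)` in `G(X) G(-X)`, `G = ∑ g i X ^ i`. -/
noncomputable def C (l : ℕ) : ℝ :=
  ∑ i ∈ Finset.range (2 * l + 1), (-1 : ℝ) ^ i * g i * g (2 * l - i)

/-- the coefficients of `x / sin x` (in `x ^ (2 l)`). -/
def c : ℕ → ℚ
  | 0 => 1
  | l + 1 => ∑ j : Fin (l + 1), (-1) ^ (l - (j : ℕ)) * c j / ((2 * (l + 1 - (j : ℕ)) + 1).factorial : ℚ)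

end Pool.Agent.GD71
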