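import Pool.Agent.GD71.Defs

/-! The matrices `E (n i) j` for strictly increasing `n` are nonsingular. -/

namespace Pool.Agent.GD71
open Finset

/-- the normalised numbers `E n j / n!`. -/
def eN (n j : ℕ) : ℚ := E n j / (n.factorial : ℚ)

theorem E_zero_right (n : ℕ) : E n 0 = (n.factorial : ℚ) := by
  induction n with
  | zero => simp [E]
  | succ n ih => rw [E, ih, Nat.factorial_succ]; push_cast; ring

theorem eN_zero (n : ℕ) : eN n 0 = 1 := by
  rw [eN, E_zero_right]
  exact div_self (by exact_mod_cast Nat.factorial_ne_zero n)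

theorem eN_succ (n j : ℕ) : eN (n + 1) (j + 1) = eN n (j + 1) + eN n j / ((n : ℚ) + 1) := by
  have h1 : (n.factorial : ℚ) ≠ 0 := by exact_mod_cast Nat.factorial_ne_zero n
  have h2 : (n : ℚ) + 1 ≠ 0 := by positivity
  rw [eN, eN, eN, E, Nat.factorial_succ]
  push_cast
  field_simp

theorem eN_sub (j n m : ℕ) (h : n ≤ m) :
    eN m (j + 1) = (∑ l ∈ Ico n m, eN l j / ((l : ℚ) + 1)) + eN n (j + 1) := by
  induction m, h using Nat.le_induction with
  | base => simp
  | succ m hm ih =>
    rw [eN_succ, ih, Finset.sum_Ico_succ_top hm]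
    ring

theorem det_pos : ∀ (r : ℕ) (n : Fin r → ℕ), StrictMono n →
    0 < (Matrix.of fun i j : Fin r => eN (n i) j).det := by
  intro r
  induction r with
  | zero => intro n _; simp
  | succ r ih =>
    intro n hn
    set A : Matrix (Fin (r + 1)) (Fin (r + 1)) ℚ := Matrix.of fun i j => eN (n i) j with hA
    set B : Matrix (Fin (r + 1)) (Fin (r + 1)) ℚ := Matrix.of fun i j =>
      Fin.cases (A 0 j) (fun i => A i.succ j - A i.castSucc j) i with hB
    have hAB : A.det = B.det := by
      refine Matrix.det_eq_of_forall_row_eq_smul_add_pred (fun _ => 1) ?_ ?_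
      · intro j; simp [hB]
      · intro i j; simp [hB]
    rw [hAB, Matrix.det_succ_column_zero, Fin.sum_univ_succ]
    have h0 : ∑ i : Fin r, (-1 : ℚ) ^ ((i.succ : Fin (r + 1)) : ℕ) * B i.succ 0 *
        (B.submatrix i.succ.succAbove Fin.succ).det = 0 := by
      refine Finset.sum_eq_zero fun i _ => ?_
      have : B i.succ 0 = 0 := by simp [hB, hA, eN_zero]
      rw [this]; ring
    have h1 : B 0 0 = 1 := by simp [hB, hA, eN_zero]
    rw [h0, h1]
    set S : Fin r → Finset ℕ := fun i => Ico (n i.castSucc) (n i.succ) with hS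
    have h2 : B.submatrix (Fin.succAbove 0) Fin.succ =
        fun i : Fin r => ∑ l ∈ S i, (fun j : Fin r => eN l j / ((l : ℚ) + 1)) := by
      funext i j
      have hle : n i.castSucc ≤ n i.succ := (hn (Fin.castSucc_lt_succ)).le
      have := eN_sub j (n i.castSucc) (n i.succ) hle
      simp only [Matrix.submatrix_apply, Fin.succAbove_zero, hB, Matrix.of_apply, Fin.cases_succ, hA,
        Finset.sum_apply, hS, Fin.val_succ]
      rw [this]; ring
    have h3 : (B.submatrix (Fin.succAbove 0) Fin.succ).det =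
        ∑ s ∈ Fintype.piFinset S, (∏ i, (1 / ((s i : ℚ) + 1))) *
          (Matrix.of fun i j : Fin r => eN (s i) j).det := by
      rw [h2]
      have := (Matrix.detRowAlternating (R := ℚ) (n := Fin r)).toMultilinearMap.map_sum_finset
        (fun (i : Fin r) (l : ℕ) => (fun j : Fin r => eN l j / ((l : ℚ) + 1))) S
      refine this.trans (Finset.sum_congr rfl fun s _ => ?_)
      rw [← Matrix.det_mul_column]
      show Matrix.det _ = _
      congr 1
      funext i j
      simp only [Matrix.of_apply]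
      ring
    rw [h3]
    simp only [Fin.val_zero, pow_zero, one_mul, add_zero]
    refine Finset.sum_pos (fun s hs => ?_) ?_
    · rw [Fintype.mem_piFinset] at hs
      refine mul_pos (Finset.prod_pos fun i _ => by positivity) (ih s ?_)
      intro i j hij
      have hi := Finset.mem_Ico.1 (hs i)
      have hj := Finset.mem_Ico.1 (hs j)
      have h4 : i.succ ≤ j.castSucc := by
        rw [Fin.le_def]; simp only [Fin.val_succ, Fin.val_castSucc]; exact hij
      exact lt_of_lt_of_le hi.2 ((hn.monotone h4).trans hj.1)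
    · rw [Fintype.piFinset_nonempty]
      intro i
      exact Finset.nonempty_Ico.2 (hn (Fin.castSucc_lt_succ))

/-- M2 (file Det.lean) -/
theorem exists_comb (r : ℕ) (n : Fin (r + 1) → ℕ) (hn : StrictMono n) (l : ℕ) (hl : l ≤ r) :
    ∃ a : Fin (r + 1) → ℚ, ∀ j ≤ r, ∑ i, a i * E (n i) j = if j = l then 1 else 0 := by
  set M : Matrix (Fin (r + 1)) (Fin (r + 1)) ℚ := Matrix.of fun i j => E (n i) j with hM
  have hdet : M.det ≠ 0 := by
    have h1 : M = Matrix.of fun i j : Fin (r + 1) => ((n i).factorial : ℚ) *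
        (Matrix.of fun i j : Fin (r + 1) => eN (n i) j) i j := by
      funext i j
      simp only [hM, Matrix.of_apply, eN]
      have : ((n i).factorial : ℚ) ≠ 0 := by exact_mod_cast Nat.factorial_ne_zero _
      field_simp
    rw [h1, Matrix.det_mul_column]
    refine mul_ne_zero (Finset.prod_ne_zero_iff.2 fun i _ => ?_) (det_pos _ n hn).ne'
    exact_mod_cast Nat.factorial_ne_zero _
  have hu : IsUnit M.det := isUnit_iff_ne_zero.2 hdet
  set L : Fin (r + 1) := ⟨l, by omega⟩ with hL
  refine ⟨Matrix.vecMul (Pi.single L 1) M⁻¹, fun j hj => ?_⟩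
  have h2 : Matrix.vecMul (Matrix.vecMul (Pi.single L 1) M⁻¹) M = Pi.single L 1 := by
    rw [Matrix.vecMul_vecMul, Matrix.nonsing_inv_mul _ hu, Matrix.vecMul_one]
  have h3 := congrFun h2 ⟨j, by omega⟩
  have h4 : (Matrix.vecMul (Matrix.vecMul (Pi.single L 1) M⁻¹) M) ⟨j, by omega⟩ =
      ∑ i, (Matrix.vecMul (Pi.single L 1) M⁻¹) i * E (n i) j := rfl
  rw [← h4, h3, Pi.single_apply]
  have h5 : ((⟨j, by omega⟩ : Fin (r + 1)) = L) ↔ j = l := by rw [hL, Fin.mk.injEq]
  simp only [h5]

end Pool.Agent.GD71
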