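import Pool.Agent.GD71.Place

/-! The residue field of a weighted place of `ℝ` relative to a subfield `K`. -/

namespace Pool.Agent.GD71

variable {K : IntermediateField ℚ ℝ}

lemma alg_rat (q : ℚ) : IsAlgebraic K (q : ℝ) := by
  have h := isAlgebraic_algebraMap (R := K) (A := ℝ) (q : K)
  simpa using h

lemma alg_nat (n : ℕ) : IsAlgebraic K (n : ℝ) := by
  have h := alg_rat (K := K) (n : ℚ)
  simpa using h

lemma alg_ofNat (n : ℕ) [n.AtLeastTwo] : IsAlgebraic K (OfNat.ofNat n : ℝ) := by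
  have h := alg_nat (K := K) (OfNat.ofNat n)
  rwa [Nat.cast_ofNat] at h

lemma alg_div {a b : ℝ} (ha : IsAlgebraic K a) (hb : IsAlgebraic K b) : IsAlgebraic K (a / b) := by
  rw [div_eq_mul_inv]
  exact ha.mul hb.inv

/-- The data given by a weighted place. -/
structure PlaceK (K : IntermediateField ℚ ℝ) {ι : Type} (x : ι → ℝ) (w : ι → ℕ) where
  /-- the valuation ring -/
  V : ValuationSubring ℝ
  /-- the scaling parameter -/
  t : ℝ
  alg : ∀ a : ℝ, IsAlgebraic K a → a ∈ V
  t_mem : t ∈ V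
  t_lt : V.valuation t < 1
  t_ne : t ≠ 0
  mem : ∀ i, x i * t ^ w i ∈ V
  unit : ∃ i, V.valuation (x i * t ^ w i) = 1

theorem exists_placeK {ι : Type} [Finite ι] (x : ι → ℝ) (w : ι → ℕ) (hw : ∀ i, 0 < w i)
    (hx : ∃ i, ¬ IsAlgebraic K (x i)) : Nonempty (PlaceK K x w) := by
  obtain ⟨V, t, h1, h2, h3, h4, h5, h6⟩ := exists_place K x w hw hx
  exact ⟨⟨V, t, h1, h2, h3, h4, h5, h6⟩⟩

namespace PlaceK

variable {ι : Type} {x : ι → ℝ} {w : ι → ℕ} (P : PlaceK K x w)

/-- The residue field. -/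
abbrev kk : Type := IsLocalRing.ResidueField P.V

/-- The residue map. -/
noncomputable def res : P.V →+* P.kk := IsLocalRing.residue P.V

lemma res_eq_zero_iff (a : P.V) : P.res a = 0 ↔ P.V.valuation (a : ℝ) < 1 := by
  unfold res
  rw [IsLocalRing.residue_eq_zero_iff, ValuationSubring.valuation_lt_one_iff]

/-- The scaling parameter as an element of the valuation ring. -/
def T : P.V := ⟨P.t, P.t_mem⟩

lemma res_T : P.res P.T = 0 := by
  rw [res_eq_zero_iff]
  exact P.t_lt

/-- The scaled numbers as elements of the valuation ring. -/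
def X (i : ι) : P.V := ⟨x i * P.t ^ w i, P.mem i⟩

lemma exists_res_ne : ∃ i, P.res (P.X i) ≠ 0 := by
  obtain ⟨i, hi⟩ := P.unit
  refine ⟨i, ?_⟩
  rw [Ne, res_eq_zero_iff]
  change ¬ P.V.valuation (x i * P.t ^ w i) < 1
  rw [hi]
  exact lt_irrefl _

/-- An algebraic number as an element of the valuation ring. -/
def A (a : ℝ) (ha : IsAlgebraic K a) : P.V := ⟨a, P.alg a ha⟩

lemma res_A_eq_zero {a : ℝ} (ha : IsAlgebraic K a) (h : P.res (P.A a ha) = 0) : a = 0 := by
  by_contra h0
  have h1 : P.A a ha * P.A a⁻¹ ha.inv = 1 := by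
    apply Subtype.ext
    change a * a⁻¹ = 1
    exact mul_inv_cancel₀ h0
  have h2 := congrArg P.res h1
  rw [map_mul, h, zero_mul, map_one] at h2
  exact zero_ne_one h2

lemma res_X_of_alg {i : ι} (hw : 0 < w i) (h : IsAlgebraic K (x i)) : P.res (P.X i) = 0 := by
  have h1 : P.X i = P.A (x i) h * P.T ^ w i := by
    apply Subtype.ext
    simp [X, A, T]
  rw [h1, map_mul, map_pow, res_T, zero_pow hw.ne', mul_zero]

instance : CharZero P.kk := by
  refine charZero_of_inj_zero fun n hn => ?_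
  by_contra h0
  have h1 : P.res (P.A (n : ℝ) (alg_nat n)) = 0 := by
    rw [← hn]
    have : P.A (n : ℝ) (alg_nat n) = (n : P.V) := by
      apply Subtype.ext
      simp [A]
    rw [this, map_natCast]
  have := P.res_A_eq_zero _ h1
  exact h0 (by exact_mod_cast this)

end PlaceK

end Pool.Agent.GD71
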