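import Pool.Agent.GD71.Main
import Pool.Agent.GD71.Ext

/-! The final theorem for the list `γ, ζ(3), ζ(3)/π³, Γ⁽ᵏ⁾(1), Γ⁽ᵏ⁾(2), …`. -/

namespace Pool.Agent.GD71
open Finset

lemma zeta_eq_T (j : ℕ) : zeta j = Pool.Agent.Lib.GammaDerivs.T j 1 := rfl

/-- `k = 3, 4` -/
lemma final34 (k : ℕ) (hk : k = 3 ∨ k = 4) (s : Finset ℕ) (hs : 2 < s.card) (x : ℝ)
    (hx : x = Real.eulerMascheroniConstant ∨ x = Real.pi ∨ ∃ j, 2 ≤ j ∧ j ≤ k ∧ x = zeta j) :
    IsAlgebraic (IntermediateField.adjoin ℚ (numberX k '' (s : Set ℕ))) x := by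
  classical
  set K := IntermediateField.adjoin ℚ (numberX k '' (s : Set ℕ)) with hK
  have hmem : ∀ i ∈ s, IsAlgebraic K (numberX k i) := by
    intro i hi
    have h : numberX k i ∈ K := IntermediateField.subset_adjoin ℚ _ ⟨i, hi, rfl⟩
    exact isAlgebraic_algebraMap (R := K) (A := ℝ) (⟨numberX k i, h⟩ : K)
  obtain ⟨u, hu, hcard⟩ := Finset.exists_subset_card_eq (show 3 ≤ s.card by omega)
  have hmu : ∀ i : Fin 3, IsAlgebraic K (numberX k (u.orderEmbOfFin hcard i)) := fun i =>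
    hmem _ (hu (u.orderEmbOfFin_mem hcard i))
  have h01 : u.orderEmbOfFin hcard 0 < u.orderEmbOfFin hcard 1 :=
    (u.orderEmbOfFin hcard).strictMono (by decide)
  have h12 : u.orderEmbOfFin hcard 1 < u.orderEmbOfFin hcard 2 :=
    (u.orderEmbOfFin hcard).strictMono (by decide)
  obtain ⟨e1, e2, e3⟩ := Ext.main k hk _ _ _ h01 h12 (hmu 0) (hmu 1) (hmu 2)
  rcases hx with rfl | rfl | ⟨j, hj1, hj2, rfl⟩
  · exact e1
  · exact Ext.alg_pi e2
  · obtain rfl | rfl | rfl : j = 2 ∨ j = 3 ∨ j = 4 := by omega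
    · exact e2
    · exact e3
    · rw [zeta_eq_T, Ext.T_four_eq]
      have h := alg_rat (K := K) (2 / 5)
      push_cast at h
      exact h.mul (e2.pow 2)

/-- positions without `ζ(3)`, `ζ(3)/π³` -/
lemma final_general (k : ℕ) (hk : 2 ≤ k) (s : Finset ℕ) (hs : (k + 1) / 2 < s.card)
    (h : 1 ∉ s ∧ 2 ∉ s) (x : ℝ)
    (hx : x = Real.eulerMascheroniConstant ∨ x = Real.pi ∨ ∃ j, 2 ≤ j ∧ j ≤ k ∧ x = zeta j) :
    IsAlgebraic (IntermediateField.adjoin ℚ (numberX k '' (s : Set ℕ))) x := by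
  classical
  have hne : ∀ i ∈ s, i ≠ 1 ∧ i ≠ 2 := fun i hi =>
    ⟨fun h0 => h.1 (h0 ▸ hi), fun h0 => h.2 (h0 ▸ hi)⟩
  have hval : ∀ i ∈ s, number k (i - 2) = numberX k i := by
    intro i hi
    obtain ⟨h1, h2⟩ := hne i hi
    match i, h1, h2 with
    | 0, _, _ => rfl
    | n + 3, _, _ => rfl
  have hinj : Set.InjOn (fun i : ℕ => i - 2) (s : Set ℕ) := by
    intro i hi j hj hij
    have h1 := hne i hi
    have h2 := hne j hj
    simp only at hij
    omega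
  have hcard : (s.image (fun i => i - 2)).card = s.card := Finset.card_image_of_injOn hinj
  have hset : number k '' ((s.image (fun i => i - 2) : Finset ℕ) : Set ℕ) =
      numberX k '' (s : Set ℕ) := by
    ext y
    constructor
    · rintro ⟨j, hj, rfl⟩
      obtain ⟨i, hi, rfl⟩ := Finset.mem_image.1 (Finset.mem_coe.1 hj)
      exact ⟨i, hi, (hval i hi).symm⟩
    · rintro ⟨i, hi, rfl⟩
      exact ⟨i - 2, Finset.mem_coe.2 (Finset.mem_image.2 ⟨i, hi, rfl⟩), hval i hi⟩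
  rw [← hset]
  exact main k hk _ (by rw [hcard]; exact hs) x hx

/-- In the list `γ, ζ(3), ζ(3)/π³, Γ⁽ᵏ⁾(1), Γ⁽ᵏ⁾(2), …` take more than `⌊(k+1)/2⌋` positions, those of
`ζ(3)`, `ζ(3)/π³` being allowed only for `k = 3, 4`; then `γ`, `π`, `ζ(2)`, …, `ζ(k)` are algebraic over
the field generated by the members in these positions. -/
theorem final (k : ℕ) (hk : 2 ≤ k) (s : Finset ℕ) (hs : (k + 1) / 2 < s.card)
    (h : k = 3 ∨ k = 4 ∨ (1 ∉ s ∧ 2 ∉ s)) (x : ℝ)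
    (hx : x = Real.eulerMascheroniConstant ∨ x = Real.pi ∨ ∃ j, 2 ≤ j ∧ j ≤ k ∧ x = zeta j) :
    IsAlgebraic (IntermediateField.adjoin ℚ (numberX k '' (s : Set ℕ))) x := by
  rcases h with rfl | rfl | h
  · exact final34 3 (Or.inl rfl) s (by omega) x hx
  · exact final34 4 (Or.inr rfl) s (by omega) x hx
  · exact final_general k hk s hs h x hx

end Pool.Agent.GD71
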