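import Mathlib

/-! If `m` algebraically independent numbers are algebraic over the field generated by `m` numbers,
then these are algebraically independent. -/

namespace Pool.Agent.GD71
open Set
open scoped IntermediateField.algebraAdjoinAdjoin

/-- M9 (file Indep.lean) -/
theorem indep {K : Type*} [Field K] [Algebra ℚ K] {m : ℕ} (a b : Fin m → K)
    (hab : ∀ i, IsAlgebraic (IntermediateField.adjoin ℚ (Set.range a)) (b i))
    (hb : AlgebraicIndependent ℚ b) : AlgebraicIndependent ℚ a := by
  set M := AlgebraicIndependent.matroid ℚ K with hM
  have hI : M.Indep (range b) := AlgebraicIndependent.matroid_indep_iff.2 hb.to_subtype_range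
  have hsub : range b ⊆ M.closure (range a) := by
    rw [hM, AlgebraicIndependent.matroid_closure_eq]
    rintro _ ⟨i, rfl⟩
    have h1 := (IsFractionRing.isAlgebraic_iff (Algebra.adjoin ℚ (range a))
      (IntermediateField.adjoin ℚ (range a)) K).2 (hab i)
    exact h1
  have hcb : (range b).encard = m := by
    rw [← image_univ, hb.injective.injOn.encard_image, encard_univ]
    simp
  have hca : (range a).encard ≤ m := by
    rw [← image_univ]
    refine (encard_image_le _ _).trans ?_
    rw [encard_univ]; simp
  have h2 : (m : ℕ∞) ≤ M.eRk (range a) := by
    rw [← M.eRk_closure_eq, ← hcb, ← hI.eRk_eq_encard]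
    exact M.eRk_mono hsub
  have h3 : M.eRk (range a) ≤ (range a).encard := M.eRk_le_encard _
  have hea : (range a).encard = m := le_antisymm hca (h2.trans h3)
  have hIa : M.Indep (range a) := by
    rw [Matroid.indep_iff_eRk_eq_encard_of_finite (finite_range a)]
    exact le_antisymm h3 (hea ▸ h2)
  have hinj : Function.Injective a := by
    have h4 : (a '' univ).encard = (univ : Set (Fin m)).encard := by
      rw [image_univ, hea, encard_univ]; simp
    have h5 := (finite_univ.injOn_of_encard_image_eq h4)
    exact injOn_univ.1 h5
  exact AlgebraicIndependent.of_subtype_range hinj (AlgebraicIndependent.matroid_indep_iff.1 hIa)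

end Pool.Agent.GD71
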