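import Mathlib

/-! Weighted places of `ℝ` relative to a subfield `K`: if some of finitely many real numbers is
transcendental over `K`, there is a valuation ring of `ℝ` containing all numbers algebraic over
`K`, and a scaling of the numbers by powers of an element of the maximal ideal (with prescribed
positive weights), such that the scaled numbers lie in the ring and not all of them in the maximal
ideal. -/

namespace Pool.Agent.GD71

/-- The ring of the real numbers which are algebraic over `K`. -/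
noncomputable def AlgR (K : IntermediateField ℚ ℝ) : Subring ℝ := (integralClosure K ℝ).toSubring

lemma mem_AlgR {K : IntermediateField ℚ ℝ} {x : ℝ} : x ∈ AlgR K ↔ IsAlgebraic K x := by
  rw [isAlgebraic_iff_isIntegral]
  rfl

instance (K : IntermediateField ℚ ℝ) : IsIntegrallyClosedIn (AlgR K) ℝ := by
  rw [Subring.isIntegrallyClosedIn_iff]
  intro x hx
  rw [mem_AlgR, isAlgebraic_iff_isIntegral]
  have h1 : IsIntegral (integralClosure K ℝ) x := hx
  exact isIntegral_trans x h1

lemma valuation_abs (V : ValuationSubring ℝ) (x : ℝ) : V.valuation |x| = V.valuation x := by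
  rcases abs_choice x with h | h
  · rw [h]
  · rw [h, Valuation.map_neg]

/-- M5 -/
theorem exists_place (K : IntermediateField ℚ ℝ) {ι : Type} [Finite ι] (x : ι → ℝ) (w : ι → ℕ)
    (hw : ∀ i, 0 < w i) (hx : ∃ i, ¬ IsAlgebraic K (x i)) :
    ∃ (V : ValuationSubring ℝ) (t : ℝ), (∀ a : ℝ, IsAlgebraic K a → a ∈ V) ∧ t ∈ V ∧
      V.valuation t < 1 ∧ t ≠ 0 ∧ (∀ i, x i * t ^ w i ∈ V) ∧ ∃ i, V.valuation (x i * t ^ w i) = 1 := by
  classical
  have := Fintype.ofFinite ι
  obtain ⟨i, hi⟩ := hx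
  have hi' : x i ∉ AlgR K := fun h => hi (mem_AlgR.1 h)
  obtain ⟨V, hV, hxV⟩ := Subring.exists_le_valuationSubring_of_isIntegrallyClosedIn hi'
  set v := V.valuation with hv
  have hvi : 1 < v (x i) := by
    rw [← not_le, V.valuation_le_one_iff]
    exact hxV
  set N := ∏ j, w j with hN
  have hN0 : 0 < N := Finset.prod_pos fun j _ => hw j
  have hdiv : ∀ j, w j * (N / w j) = N := fun j =>
    Nat.mul_div_cancel' (Finset.dvd_prod_of_mem w (Finset.mem_univ j))
  have hdiv0 : ∀ j, N / w j ≠ 0 := by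
    intro j h
    have := hdiv j
    rw [h, mul_zero] at this
    omega
  obtain ⟨j, -, hj⟩ := Finset.exists_max_image Finset.univ (fun j => v (x j) ^ (N / w j))
    ⟨i, Finset.mem_univ i⟩
  have hvj : 1 < v (x j) := by
    have h1 := hj i (Finset.mem_univ i)
    have h2 : 1 < v (x i) ^ (N / w i) := one_lt_pow₀ hvi (hdiv0 i)
    by_contra h3
    have h4 : v (x j) ^ (N / w j) ≤ 1 := pow_le_one₀ zero_le (not_lt.1 h3)
    exact absurd (h2.trans_le h1) (not_lt.2 h4)
  obtain ⟨u, hu⟩ : ∃ u : ℝ, u ^ w j = |x j| :=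
    ⟨|x j| ^ ((w j : ℝ)⁻¹), Real.rpow_inv_natCast_pow (abs_nonneg _) (hw j).ne'⟩
  have hvxu : v (x j) = v u ^ w j := by
    rw [← map_pow, hu, hv, valuation_abs]
  have hvu : 1 < v u := by
    by_contra h3
    have h4 : v u ^ w j ≤ 1 := pow_le_one₀ zero_le (not_lt.1 h3)
    rw [← hvxu] at h4
    exact absurd hvj (not_lt.2 h4)
  have hu0 : u ≠ 0 := by
    rintro rfl
    simp at hvu
  have hvt : v u⁻¹ < 1 := by
    rw [map_inv₀]
    exact inv_lt_one_of_one_lt₀ hvu
  have key : v (x j * u⁻¹ ^ w j) = 1 := by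
    rw [map_mul, hvxu, ← map_pow, ← map_mul, ← mul_pow, mul_inv_cancel₀ hu0, one_pow, map_one]
  refine ⟨V, u⁻¹, fun a ha => hV (mem_AlgR.2 ha), ?_, hvt, inv_ne_zero hu0, fun l => ?_, ⟨j, key⟩⟩
  · rw [← V.valuation_le_one_iff]
    exact hvt.le
  · rw [← V.valuation_le_one_iff]
    have h1 := hj l (Finset.mem_univ l)
    have h2 : v (x l * u⁻¹ ^ w l) ^ (N / w l) ≤ 1 := by
      rw [map_mul, mul_pow, map_pow, ← pow_mul, hdiv l]
      have h3 : v (x j * u⁻¹ ^ w j) ^ (N / w j) = 1 := by rw [key, one_pow]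
      rw [map_mul, mul_pow, map_pow, ← pow_mul, hdiv j] at h3
      rw [← h3]
      exact mul_le_mul_left h1 _
    by_contra h3
    have h4 := one_lt_pow₀ (not_le.1 h3) (hdiv0 l)
    exact absurd h2 (not_le.2 h4)

end Pool.Agent.GD71
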