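import Pool.Agent.GD71.Defs

/-! Positivity of the coefficients of `G(X) G(-X)`. -/

namespace Pool.Agent.GD71
open Finset

namespace Pos5
open PowerSeries

theorem zeta_nonneg (j : ℕ) : 0 ≤ zeta j := by
  unfold zeta
  exact tsum_nonneg fun i => by positivity

theorem zeta_pos {j : ℕ} (hj : 2 ≤ j) : 0 < zeta j := by
  unfold zeta
  have hs : Summable (fun i : ℕ => 1 / ((i : ℝ) + 1) ^ j) := by
    have h := (Real.summable_one_div_nat_pow (p := j)).2 (by omega)
    have h2 := (summable_nat_add_iff 1).2 h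
    simpa using h2
  exact hs.tsum_pos (fun i => by positivity) 0 (by norm_num)

/-- the generating series of `g`. -/
noncomputable def G : PowerSeries ℝ := PowerSeries.mk g

/-- `G(-X)`. -/
noncomputable def Gm : PowerSeries ℝ := PowerSeries.mk fun n => (-1) ^ n * g n

/-- the series `ψ(1 + X)`. -/
noncomputable def Ps : PowerSeries ℝ := PowerSeries.mk fun n =>
  if n = 0 then -Real.eulerMascheroniConstant else (-1 : ℝ) ^ (n + 1) * zeta (n + 1)

/-- `Ps(-X)`. -/
noncomputable def Pm : PowerSeries ℝ := PowerSeries.mk fun n =>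
  (-1) ^ n * (if n = 0 then -Real.eulerMascheroniConstant else (-1 : ℝ) ^ (n + 1) * zeta (n + 1))

theorem Gm_eq : Gm = rescale (-1 : ℝ) G := by
  ext n; simp [Gm, G, coeff_rescale]

theorem Pm_eq : Pm = rescale (-1 : ℝ) Ps := by
  ext n; simp [Pm, Ps, coeff_rescale]

theorem C_eq_coeff (l : ℕ) : C l = coeff (2 * l) (G * Gm) := by
  rw [coeff_mul, C, Finset.Nat.sum_antidiagonal_eq_sum_range_succ_mk]
  have : ∀ i ∈ range (2 * l).succ, coeff i G * coeff (2 * l - i) Gm
      = (-1 : ℝ) ^ i * g i * g (2 * l - i) := by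
    intro i hi
    have hi' : i ≤ 2 * l := by simpa [Nat.lt_succ_iff] using hi
    simp only [G, Gm, coeff_mk]
    have e : (-1 : ℝ) ^ (2 * l - i) = (-1) ^ i := by
      have h1 : (-1 : ℝ) ^ (2 * l - i) * (-1) ^ i = 1 := by
        rw [← pow_add, Nat.sub_add_cancel hi', pow_mul]; simp
      have h2 : (-1 : ℝ) ^ i * (-1) ^ i = 1 := by
        rw [← mul_pow]; simp
      have h3 : (-1 : ℝ) ^ i ≠ 0 := pow_ne_zero _ (by norm_num)
      exact mul_right_cancel₀ h3 (h1.trans h2.symm)
    rw [e]; ring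
  rw [Finset.sum_congr rfl this]

theorem coeff_odd {n : ℕ} (hn : Odd n) : coeff n (G * Gm) = 0 := by
  have h : rescale (-1 : ℝ) (G * Gm) = G * Gm := by
    rw [map_mul, ← Gm_eq]
    have : rescale (-1 : ℝ) Gm = G := by
      ext n
      simp only [Gm, G, coeff_rescale, coeff_mk]
      rw [← mul_assoc, ← mul_pow]; simp
    rw [this, mul_comm]
  have h2 := congrArg (coeff n) h
  rw [coeff_rescale, hn.neg_one_pow] at h2
  linarith

theorem main_ode (hg : ∀ i : ℕ, ((i : ℝ) + 1) * g (i + 1) = -Real.eulerMascheroniConstant * g i +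
    ∑ j ∈ Finset.Icc 2 (i + 1), (-1 : ℝ) ^ j * zeta j * g (i + 1 - j)) :
    derivative ℝ G = G * Ps := by
  ext n
  rw [coeff_derivative, mul_comm G Ps, coeff_mul, Finset.Nat.sum_antidiagonal_eq_sum_range_succ_mk]
  simp only [G, Ps, coeff_mk]
  rw [mul_comm, hg n, Finset.sum_range_succ']
  simp only [if_true, Nat.sub_zero]
  rw [add_comm]
  congr 1
  have e : Finset.Icc 2 (n + 1) = (range n).image (fun k => k + 2) := by
    ext j
    simp only [Finset.mem_image, Finset.mem_range, Finset.mem_Icc]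
    constructor
    · rintro ⟨h1, h2⟩; exact ⟨j - 2, by omega, by omega⟩
    · rintro ⟨a, ha, rfl⟩; omega
  rw [e, Finset.sum_image (by intro a _ b _ h; simpa using h)]
  refine Finset.sum_congr rfl fun k hk => ?_
  rw [if_neg (Nat.succ_ne_zero k)]
  have : n + 1 - (k + 2) = n - (k + 1) := by omega
  rw [this]

theorem Gm_ode (h : derivative ℝ G = G * Ps) : derivative ℝ Gm = -(Gm * Pm) := by
  have h1 : derivative ℝ Gm = -(rescale (-1 : ℝ) (derivative ℝ G)) := by
    ext n
    simp only [Gm, G, coeff_derivative, coeff_rescale, coeff_mk, map_neg]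
    rw [pow_succ]; ring
  rw [h1, h, map_mul, ← Gm_eq, ← Pm_eq]

theorem H_ode (h : derivative ℝ G = G * Ps) :
    derivative ℝ (G * Gm) = (G * Gm) * (Ps - Pm) := by
  rw [Derivation.leibniz, Gm_ode h, h]
  simp only [smul_eq_mul]
  ring

theorem coeff_P (n : ℕ) : coeff n (Ps - Pm) = if Odd n then 2 * zeta (n + 1) else 0 := by
  rw [map_sub]
  simp only [Ps, Pm, coeff_mk]
  by_cases hn : Odd n
  · have h0 : n ≠ 0 := by rintro rfl; simp at hn
    rw [if_pos hn, if_neg h0, hn.neg_one_pow, pow_succ, hn.neg_one_pow]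
    ring
  · have he : Even n := Nat.not_odd_iff_even.1 hn
    rw [if_neg hn, he.neg_one_pow]
    ring

theorem g_zero : g 0 = 1 := by
  simp [g, Real.Gamma_one]

theorem C_zero : C 0 = 1 := by
  simp [C, g_zero]

/-- `2 (l + 1) C (l + 1) = 2 ∑ ...`. -/
theorem C_rec (h : derivative ℝ G = G * Ps) (l : ℕ) :
    (∀ m ≤ l, 0 < C m) → 0 < C (l + 1) := by
  intro hm
  have hH := congrArg (coeff (2 * l + 1)) (H_ode h)
  rw [coeff_derivative] at hH
  have h2 : 2 * l + 1 + 1 = 2 * (l + 1) := by ring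
  rw [h2, ← C_eq_coeff, coeff_mul] at hH
  have hpos : 0 < ∑ p ∈ antidiagonal (2 * l + 1), coeff p.1 (G * Gm) * coeff p.2 (Ps - Pm) := by
    apply Finset.sum_pos'
    · rintro ⟨a, b⟩ hab
      simp only
      rw [coeff_P]
      rcases Nat.even_or_odd a with ha | ha
      · obtain ⟨r, hr⟩ := ha
        have hr' : a = 2 * r := by omega
        have hle : r ≤ l := by
          have := Finset.HasAntidiagonal.mem_antidiagonal.1 hab
          simp only at this
          omega
        rw [hr', ← C_eq_coeff]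
        apply mul_nonneg (hm r hle).le
        split_ifs
        · have := zeta_nonneg (b + 1); linarith
        · exact le_refl _
      · rw [coeff_odd ha, zero_mul]
    · refine ⟨(0, 2 * l + 1), by simp, ?_⟩
      simp only
      rw [coeff_P, if_pos (by exact ⟨l, rfl⟩)]
      have h0 : coeff 0 (G * Gm) = C 0 := by
        rw [C_eq_coeff]
      rw [h0]
      have hz := zeta_pos (j := 2 * l + 1 + 1) (by omega)
      have hc := hm 0 (Nat.zero_le _)
      positivity
  rw [← hH] at hpos
  have hq : (0 : ℝ) < ((2 * l + 1 : ℕ) : ℝ) + 1 := by positivity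
  exact (pos_iff_pos_of_mul_pos hpos).2 hq

end Pos5

/-- M4b, from the recursion of `g`. -/
theorem C_pos_of (hg : ∀ i : ℕ, ((i : ℝ) + 1) * g (i + 1) = -Real.eulerMascheroniConstant * g i +
    ∑ j ∈ Finset.Icc 2 (i + 1), (-1 : ℝ) ^ j * zeta j * g (i + 1 - j)) (l : ℕ) : 0 < C l := by
  induction l using Nat.strong_induction_on with
  | _ l ih =>
    cases l with
    | zero => rw [Pos5.C_zero]; exact one_pos
    | succ l => exact Pos5.C_rec (Pos5.main_ode hg) l fun m hm => ih m (by omega)

end Pool.Agent.GD71
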