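import Pool.Agent.GD71.Defs

/-! Derivatives of the Gamma function: the reflection formula and the Taylor coefficients of
`Γ(1 + t) Γ(1 - t)`. -/

set_option autoImplicit false

namespace Pool.Agent.GD71

open Finset Filter Topology

namespace Refl

lemma contDiffAt_Gamma (n : ℕ) {x : ℝ} (hx : 0 < x) : ContDiffAt ℝ n Real.Gamma x := by
  have ho : IsOpen {z : ℂ | 0 < z.re} := isOpen_lt continuous_const Complex.continuous_re
  have hd : DifferentiableOn ℂ Complex.Gamma {z : ℂ | 0 < z.re} := by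
    intro z hz
    refine (Complex.differentiableAt_Gamma z fun m h => ?_).differentiableWithinAt
    have h1 : 0 < z.re := hz
    rw [h] at h1
    simp at h1
    have h2 : (0 : ℝ) ≤ (m : ℝ) := Nat.cast_nonneg m
    linarith
  have ha : AnalyticAt ℂ Complex.Gamma (x : ℂ) :=
    hd.analyticAt (ho.mem_nhds (show 0 < ((x : ℂ)).re by simpa using hx))
  have hc : ContDiffAt ℂ n Complex.Gamma (x : ℂ) := ha.contDiffAt
  have := hc.real_of_complex
  exact this

/-- Taylor coefficients at `0` -/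
noncomputable def tc (f : ℝ → ℝ) (n : ℕ) : ℝ := iteratedDeriv n f 0 / (n.factorial : ℝ)

lemma tc_mul {f h : ℝ → ℝ} (n : ℕ) (hf : ContDiffAt ℝ n f 0) (hh : ContDiffAt ℝ n h 0) :
    tc (f * h) n = ∑ i ∈ range (n + 1), tc f i * tc h (n - i) := by
  unfold tc
  rw [iteratedDeriv_mul hf hh, Finset.sum_div]
  refine Finset.sum_congr rfl fun i hi => ?_
  have hi' : i ≤ n := Nat.lt_succ_iff.1 (Finset.mem_range.1 hi)
  rw [Nat.cast_choose ℝ hi']
  have h1 : ((n.factorial : ℕ) : ℝ) ≠ 0 := Nat.cast_ne_zero.2 n.factorial_ne_zero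
  have h2 : ((i.factorial : ℕ) : ℝ) ≠ 0 := Nat.cast_ne_zero.2 i.factorial_ne_zero
  have h3 : (((n - i).factorial : ℕ) : ℝ) ≠ 0 := Nat.cast_ne_zero.2 (n - i).factorial_ne_zero
  field_simp

lemma smooth1 (n : ℕ) : ContDiffAt ℝ n (fun t : ℝ => Real.Gamma (1 + t)) 0 := by
  have h : ContDiffAt ℝ n (fun t : ℝ => 1 + t) 0 := contDiffAt_const.add contDiffAt_id
  have h2 : ContDiffAt ℝ n Real.Gamma (1 + 0) := contDiffAt_Gamma n (by norm_num)
  exact ContDiffAt.comp (g := Real.Gamma) (f := fun t : ℝ => 1 + t) (0 : ℝ) h2 h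

lemma smooth2 (n : ℕ) : ContDiffAt ℝ n (fun t : ℝ => Real.Gamma (1 - t)) 0 := by
  have h : ContDiffAt ℝ n (fun t : ℝ => 1 - t) 0 := contDiffAt_const.sub contDiffAt_id
  have h2 : ContDiffAt ℝ n Real.Gamma (1 - 0) := contDiffAt_Gamma n (by norm_num)
  exact ContDiffAt.comp (g := Real.Gamma) (f := fun t : ℝ => 1 - t) (0 : ℝ) h2 h

lemma smooth3 (n : ℕ) : ContDiffAt ℝ n (fun t : ℝ => Real.sin (Real.pi * t)) 0 :=
  (Real.contDiff_sin.comp (contDiff_const.mul contDiff_id)).contDiffAt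

lemma tc1 (n : ℕ) : tc (fun t : ℝ => Real.Gamma (1 + t)) n = g n := by
  unfold tc g
  rw [iteratedDeriv_comp_const_add]
  simp

lemma tc2 (n : ℕ) : tc (fun t : ℝ => Real.Gamma (1 - t)) n = (-1) ^ n * g n := by
  unfold tc g
  rw [iteratedDeriv_comp_const_sub]
  simp [mul_div_assoc]

lemma tc3_even (k : ℕ) : tc (fun t : ℝ => Real.sin (Real.pi * t)) (2 * k) = 0 := by
  unfold tc
  rw [iteratedDeriv_comp_const_mul Real.contDiff_sin, Real.iteratedDeriv_even_sin]
  simp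

lemma tc3_odd (k : ℕ) : tc (fun t : ℝ => Real.sin (Real.pi * t)) (2 * k + 1) =
    (-1) ^ k * Real.pi ^ (2 * k + 1) / ((2 * k + 1).factorial : ℝ) := by
  unfold tc
  rw [iteratedDeriv_comp_const_mul Real.contDiff_sin, Real.iteratedDeriv_odd_sin]
  simp [mul_comm]

lemma tcF (n : ℕ) : tc ((fun t : ℝ => Real.Gamma (1 + t)) * fun t : ℝ => Real.Gamma (1 - t)) n =
    ∑ i ∈ range (n + 1), g i * ((-1) ^ (n - i) * g (n - i)) := by
  rw [tc_mul n (smooth1 n) (smooth2 n)]
  refine Finset.sum_congr rfl fun i _ => ?_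
  rw [tc1, tc2]

lemma tcF_even (l : ℕ) :
    tc ((fun t : ℝ => Real.Gamma (1 + t)) * fun t : ℝ => Real.Gamma (1 - t)) (2 * l) = C l := by
  rw [tcF, C]
  refine Finset.sum_congr rfl fun i hi => ?_
  have hi' : i ≤ 2 * l := Nat.lt_succ_iff.1 (Finset.mem_range.1 hi)
  have h : (-1 : ℝ) ^ (2 * l - i) = (-1) ^ i := by
    have h1 : (-1 : ℝ) ^ (2 * l - i) * (-1) ^ i = 1 := by
      rw [← pow_add, Nat.sub_add_cancel hi', pow_mul]
      norm_num
    have h2 : (-1 : ℝ) ^ i * (-1) ^ i = 1 := by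
      rw [← mul_pow]
      norm_num
    have h3 : (-1 : ℝ) ^ i ≠ 0 := pow_ne_zero _ (by norm_num)
    exact mul_right_cancel₀ h3 (h1.trans h2.symm)
  rw [h]
  ring

lemma tcF_odd (l : ℕ) :
    tc ((fun t : ℝ => Real.Gamma (1 + t)) * fun t : ℝ => Real.Gamma (1 - t)) (2 * l + 1) = 0 := by
  rw [tcF]
  have h := Finset.sum_range_reflect
    (fun i => g i * ((-1 : ℝ) ^ (2 * l + 1 - i) * g (2 * l + 1 - i))) (2 * l + 1 + 1)
  have h2 : ∑ j ∈ range (2 * l + 1 + 1), g (2 * l + 1 + 1 - 1 - j) *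
      ((-1 : ℝ) ^ (2 * l + 1 - (2 * l + 1 + 1 - 1 - j)) * g (2 * l + 1 - (2 * l + 1 + 1 - 1 - j))) =
      - ∑ i ∈ range (2 * l + 1 + 1), g i * ((-1 : ℝ) ^ (2 * l + 1 - i) * g (2 * l + 1 - i)) := by
    rw [← Finset.sum_neg_distrib]
    refine Finset.sum_congr rfl fun i hi => ?_
    have hi' : i ≤ 2 * l + 1 := Nat.lt_succ_iff.1 (Finset.mem_range.1 hi)
    have e1 : 2 * l + 1 + 1 - 1 - i = 2 * l + 1 - i := by omega
    have e2 : 2 * l + 1 - (2 * l + 1 - i) = i := by omega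
    rw [e1, e2]
    have h1 : (-1 : ℝ) ^ (2 * l + 1 - i) * (-1) ^ i = -1 := by
      rw [← pow_add, Nat.sub_add_cancel hi', pow_succ, pow_mul]
      norm_num
    have h2 : (-1 : ℝ) ^ i * (-1) ^ i = 1 := by
      rw [← mul_pow]
      norm_num
    have h3 : (-1 : ℝ) ^ (2 * l + 1 - i) = -(-1) ^ i := by
      have h4 : (-1 : ℝ) ^ i ≠ 0 := pow_ne_zero _ (by norm_num)
      refine mul_right_cancel₀ h4 ?_
      rw [h1, neg_mul, h2]
    rw [h3]
    ring
  rw [h2] at h
  linarith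

lemma refl_eq {t : ℝ} (ht : |t| < 1) :
    Real.Gamma (1 + t) * Real.Gamma (1 - t) * Real.sin (Real.pi * t) = Real.pi * t := by
  rcases eq_or_ne t 0 with h | h
  · subst h
    simp
  · have hs : Real.sin (Real.pi * t) ≠ 0 := by
      rw [abs_lt] at ht
      rcases lt_or_gt_of_ne h with h1 | h1
      · refine (Real.sin_neg_of_neg_of_neg_pi_lt ?_ ?_).ne
        · exact mul_neg_of_pos_of_neg Real.pi_pos h1
        · nlinarith [Real.pi_pos, ht.1]
      · refine (Real.sin_pos_of_pos_of_lt_pi ?_ ?_).ne'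
        · exact mul_pos Real.pi_pos h1
        · nlinarith [Real.pi_pos, ht.2]
    have h1 := Real.Gamma_mul_Gamma_one_sub t
    rw [add_comm 1 t, Real.Gamma_add_one h, mul_assoc t, h1, mul_assoc, div_mul_cancel₀ _ hs,
      mul_comm]

lemma tc_id (n : ℕ) : tc (fun t : ℝ => Real.pi * t) n = if n = 1 then Real.pi else 0 := by
  unfold tc
  rw [iteratedDeriv_const_mul_field (f := fun t : ℝ => t), iteratedDeriv_fun_id_zero]
  by_cases h : n = 1
  · subst h
    simp
  · simp [h]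

lemma sum_pairs (h : ℕ → ℝ) (l : ℕ) :
    ∑ i ∈ range (2 * l + 1 + 1), h i = ∑ m ∈ range (l + 1), (h (2 * m) + h (2 * m + 1)) := by
  induction l with
  | zero => simp [Finset.sum_range_succ]
  | succ l ih =>
    rw [Finset.sum_range_succ _ (l + 1), ← ih, show 2 * (l + 1) + 1 + 1 = 2 * l + 1 + 1 + 1 + 1 by ring,
      Finset.sum_range_succ, Finset.sum_range_succ, show 2 * (l + 1) = 2 * l + 1 + 1 by ring]
    ring

lemma rel (l : ℕ) : ∑ m ∈ range (l + 1), C m * ((-1) ^ (l - m) * Real.pi ^ (2 * (l - m) + 1) /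
    ((2 * (l - m) + 1).factorial : ℝ)) = if l = 0 then Real.pi else 0 := by
  have h1 : ((fun t : ℝ => Real.Gamma (1 + t)) * (fun t : ℝ => Real.Gamma (1 - t))) *
      (fun t : ℝ => Real.sin (Real.pi * t)) =ᶠ[𝓝 0] fun t : ℝ => Real.pi * t := by
    filter_upwards [Metric.ball_mem_nhds (0 : ℝ) one_pos] with t ht
    rw [Metric.mem_ball, Real.dist_eq, sub_zero] at ht
    exact refl_eq ht
  have h2 : tc (((fun t : ℝ => Real.Gamma (1 + t)) * (fun t : ℝ => Real.Gamma (1 - t))) *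
      (fun t : ℝ => Real.sin (Real.pi * t))) (2 * l + 1) = if l = 0 then Real.pi else 0 := by
    have h3 := tc_id (2 * l + 1)
    unfold tc at h3 ⊢
    rw [h1.iteratedDeriv_eq, h3]
    by_cases h : l = 0
    · simp [h]
    · rw [if_neg h, if_neg (by omega)]
  have h4 : ContDiffAt ℝ (2 * l + 1 : ℕ) ((fun t : ℝ => Real.Gamma (1 + t)) *
      (fun t : ℝ => Real.Gamma (1 - t))) 0 := (smooth1 _).mul (smooth2 _)
  rw [tc_mul (2 * l + 1) h4 (smooth3 _), sum_pairs] at h2
  rw [← h2]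
  refine Finset.sum_congr rfl fun m hm => ?_
  have hm' : m ≤ l := Nat.lt_succ_iff.1 (Finset.mem_range.1 hm)
  rw [tcF_even, tcF_odd, zero_mul, add_zero, show 2 * l + 1 - 2 * m = 2 * (l - m) + 1 by omega,
    tc3_odd]

end Refl

/-- M4a -/
theorem C_eq (l : ℕ) : C l = (c l : ℝ) * Real.pi ^ (2 * l) := by
  induction l using Nat.strong_induction_on with
  | _ l ih =>
    have hpi := Real.pi_ne_zero
    have h := Refl.rel l
    rw [Finset.sum_range_succ] at h
    simp only [Nat.sub_self, mul_zero, zero_add, pow_zero, pow_one, Nat.factorial_one, Nat.cast_one,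
      one_mul, div_one] at h
    cases l with
    | zero =>
      simp only [Finset.range_zero, Finset.sum_empty, zero_add, if_true] at h
      rw [c]
      simp only [Rat.cast_one, mul_zero, pow_zero, mul_one]
      exact mul_right_cancel₀ hpi (h.trans (one_mul _).symm)
    | succ l =>
      rw [if_neg (Nat.succ_ne_zero l)] at h
      refine mul_right_cancel₀ hpi ?_
      rw [eq_neg_of_add_eq_zero_right h]
      rw [c]
      push_cast
      rw [Fin.sum_univ_eq_sum_range (fun j => (-1 : ℝ) ^ (l - j) * (c j : ℝ) /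
        ((2 * (l + 1 - j) + 1).factorial : ℝ)) (l + 1), Finset.sum_mul, Finset.sum_mul,
        ← Finset.sum_neg_distrib]
      refine Finset.sum_congr rfl fun m hm => ?_
      have hm' : m ≤ l := Nat.lt_succ_iff.1 (Finset.mem_range.1 hm)
      rw [ih m (by omega)]
      have e1 : l + 1 - m = (l - m) + 1 := by omega
      have e2 : Real.pi ^ (2 * (l + 1 - m) + 1) * Real.pi ^ (2 * m) =
          Real.pi ^ (2 * (l + 1)) * Real.pi := by
        rw [← pow_add, ← pow_succ]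
        congr 1
        omega
      rw [show (c m : ℝ) * Real.pi ^ (2 * m) * ((-1) ^ (l + 1 - m) * Real.pi ^ (2 * (l + 1 - m) + 1) /
        ((2 * (l + 1 - m) + 1).factorial : ℝ)) = (c m : ℝ) * (-1) ^ (l + 1 - m) *
        (Real.pi ^ (2 * (l + 1 - m) + 1) * Real.pi ^ (2 * m)) /
        ((2 * (l + 1 - m) + 1).factorial : ℝ) by ring, e2]
      rw [show (-1 : ℝ) ^ (l + 1 - m) = -(-1) ^ (l - m) by rw [e1, pow_succ]; ring]
      ring

end Pool.Agent.GD71
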