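import Pool.Agent.GD71.Defs

/-! Derivatives of the Gamma function at positive integers, in terms of those at `1`. -/

set_option autoImplicit false

namespace Pool.Agent.GD71
open Finset Filter Topology

theorem contDiffAt_Gamma (m : WithTop ℕ∞) {x : ℝ} (hx : 0 < x) :
    ContDiffAt ℝ m Real.Gamma x := by
  have h1 : ContDiffAt ℂ m Complex.Gamma (x : ℂ) := by
    have ho : IsOpen {z : ℂ | 0 < z.re} := isOpen_lt continuous_const Complex.continuous_re
    have hd : DifferentiableOn ℂ Complex.Gamma {z : ℂ | 0 < z.re} := by
      intro z hz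
      refine (Complex.differentiableAt_Gamma z ?_).differentiableWithinAt
      intro n hn
      rw [hn] at hz
      simp only [Set.mem_ofPred_eq, Complex.neg_re, Complex.natCast_re] at hz
      have : (0 : ℝ) ≤ (n : ℝ) := Nat.cast_nonneg n
      linarith
    exact (hd.analyticAt (ho.mem_nhds (by simpa using hx))).contDiffAt
  exact h1.real_of_complex

theorem iteratedDeriv_add_two_id (i : ℕ) (x : ℝ) :
    iteratedDeriv (i + 2) (fun y : ℝ => y) x = 0 := by
  rw [iteratedDeriv_succ', iteratedDeriv_succ']
  have h1 : deriv (fun y : ℝ => y) = fun _ => (1 : ℝ) := by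
    ext y
    exact deriv_id y
  rw [h1]
  have h2 : deriv (fun _ : ℝ => (1 : ℝ)) = fun _ => (0 : ℝ) := by
    ext y
    simp
  rw [h2, iteratedDeriv_const]
  split_ifs <;> rfl

theorem Gamma_step (k : ℕ) {x : ℝ} (hx : 0 < x) :
    iteratedDeriv k Real.Gamma (x + 1) =
      x * iteratedDeriv k Real.Gamma x + k * iteratedDeriv (k - 1) Real.Gamma x := by
  have h1 : iteratedDeriv k (fun y => Real.Gamma (y + 1)) x = iteratedDeriv k Real.Gamma (x + 1) := by
    rw [iteratedDeriv_comp_add_const]
  have h2 : (fun y => Real.Gamma (y + 1)) =ᶠ[𝓝 x] fun y => y * Real.Gamma y := by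
    filter_upwards [Ioi_mem_nhds hx] with y hy
    exact Real.Gamma_add_one (ne_of_gt hy)
  have h3 : ContDiffAt ℝ k (fun y : ℝ => y) x := contDiffAt_id
  rw [← h1, h2.iteratedDeriv_eq k, iteratedDeriv_fun_mul h3 (contDiffAt_Gamma k hx)]
  rcases k with _ | k
  · simp
  · rw [sum_range_succ']
    rcases k with _ | k
    · simp [iteratedDeriv_one]
      ring
    · rw [sum_range_succ', sum_eq_zero]
      · simp [iteratedDeriv_one]
        ring
      · intro i _
        have := iteratedDeriv_add_two_id i x
        simp [this]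

/-- M1 -/
theorem shift (k n : ℕ) : iteratedDeriv k Real.Gamma ((n : ℝ) + 1) =
    (k.factorial : ℝ) * ∑ j ∈ range (k + 1), (E n j : ℝ) * g (k - j) := by
  induction n generalizing k with
  | zero =>
    rw [sum_range_succ', sum_eq_zero]
    · have h0 : (k.factorial : ℝ) ≠ 0 := by positivity
      simp only [Nat.cast_zero, zero_add, E, Rat.cast_one, Nat.sub_zero, one_mul, g]
      field_simp
    · intro j _
      simp [E]
  | succ n ih =>
    have h1 := Gamma_step k (x := (n : ℝ) + 1) (by positivity)
    push_cast
    rw [h1, ih k]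
    rcases k with _ | k
    · simp only [E, zero_add, range_one, sum_singleton, Nat.factorial_zero, Nat.cast_one]
      push_cast
      ring
    · rw [Nat.add_sub_cancel, ih k, Nat.factorial_succ]
      rw [sum_range_succ' (fun j => (E (n + 1) j : ℝ) * g (k + 1 - j)),
        sum_range_succ' (fun j => (E n j : ℝ) * g (k + 1 - j))]
      simp only [E, Nat.add_sub_add_right, Nat.sub_zero]
      push_cast
      simp only [add_mul, mul_add, sum_add_distrib, mul_sum]
      ring_nf

end Pool.Agent.GD71
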