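import Pool.Agent.GD71.Defs

/-!
# The 2-adic size of the coefficients of `x / sin x`
-/

set_option autoImplicit false

namespace Pool.Agent.GD71

open Finset

/-- rational numbers with odd denominator -/
def Z2 (q : ℚ) : Prop := ∃ a b : ℤ, Odd b ∧ q = a / b

theorem odd_ne {b : ℤ} (h : Odd b) : (b : ℚ) ≠ 0 := by
  intro h0
  have : b = 0 := by exact_mod_cast h0
  rw [this] at h
  exact absurd h (by decide)

theorem Z2.zero : Z2 0 := ⟨0, 1, odd_one, by simp⟩

theorem Z2.one : Z2 1 := ⟨1, 1, odd_one, by simp⟩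

theorem Z2.add {x y : ℚ} (hx : Z2 x) (hy : Z2 y) : Z2 (x + y) := by
  obtain ⟨a, b, hb, rfl⟩ := hx
  obtain ⟨a', b', hb', rfl⟩ := hy
  refine ⟨a * b' + a' * b, b * b', hb.mul hb', ?_⟩
  have h1 := odd_ne hb
  have h2 := odd_ne hb'
  push_cast
  field_simp

theorem Z2.mul {x y : ℚ} (hx : Z2 x) (hy : Z2 y) : Z2 (x * y) := by
  obtain ⟨a, b, hb, rfl⟩ := hx
  obtain ⟨a', b', hb', rfl⟩ := hy
  refine ⟨a * a', b * b', hb.mul hb', ?_⟩
  have h1 := odd_ne hb
  have h2 := odd_ne hb'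
  push_cast
  field_simp

theorem Z2.neg_one_pow (n : ℕ) : Z2 ((-1) ^ n) := ⟨(-1) ^ n, 1, odd_one, by simp⟩

theorem Z2.sum {ι : Type*} (s : Finset ι) (f : ι → ℚ) (h : ∀ i ∈ s, Z2 (f i)) :
    Z2 (∑ i ∈ s, f i) := by
  classical
  induction s using Finset.induction_on with
  | empty => simpa using Z2.zero
  | insert a s ha ih =>
    rw [sum_insert ha]
    exact (h a (mem_insert_self _ _)).add (ih (fun i hi => h i (mem_insert_of_mem hi)))

theorem Z2.two : Z2 2 := ⟨2, 1, odd_one, by simp⟩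

theorem four_pow (m : ℕ) (hm : 1 ≤ m) : Z2 ((4 : ℚ) ^ m / ((2 * m + 1).factorial : ℚ) / 2) := by
  obtain ⟨k, u, hu, hk⟩ := Nat.exists_eq_two_pow_mul_odd (Nat.factorial_ne_zero (2 * m + 1))
  have h1 : 2 ^ k ∣ (2 * m).factorial := by
    have h2 : 2 ^ k ∣ (2 * m + 1) * (2 * m).factorial := by
      rw [← Nat.factorial_succ, hk]
      exact dvd_mul_right _ _
    refine Nat.Coprime.dvd_of_dvd_mul_left ?_ h2
    refine Nat.Coprime.pow_left k ?_
    rw [Nat.coprime_two_left]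
    exact ⟨m, rfl⟩
  have h3 : k < 2 * m := by
    have h4 := Nat.emultiplicity_two_factorial_lt (n := 2 * m) (by omega)
    have h5 := le_emultiplicity_of_pow_dvd h1
    have h6 := lt_of_le_of_lt h5 h4
    exact_mod_cast h6
  obtain ⟨e, he⟩ : ∃ e, 2 * m = k + e + 1 := ⟨2 * m - k - 1, by omega⟩
  refine ⟨2 ^ e, u, by exact_mod_cast hu, ?_⟩
  have h7 : (4 : ℚ) ^ m = 2 ^ k * 2 ^ e * 2 := by
    rw [show (4 : ℚ) = 2 ^ 2 by norm_num, ← pow_mul, he]
    ring
  have h8 : (((2 * m + 1).factorial : ℕ) : ℚ) = 2 ^ k * u := by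
    rw [hk]; push_cast; ring
  have hu0 : (u : ℚ) ≠ 0 := by
    have : u ≠ 0 := by rintro rfl; exact absurd hu (by decide)
    exact_mod_cast this
  rw [h7, h8]
  push_cast
  field_simp

theorem c_two_aux (l : ℕ) : Z2 ((4 : ℚ) ^ l * c l) ∧ (1 ≤ l → Z2 ((4 : ℚ) ^ l * c l / 2)) := by
  induction l using Nat.strong_induction_on with
  | _ l ih =>
    rcases l with _ | l
    · refine ⟨?_, by omega⟩
      rw [c]
      simpa using Z2.one
    · have h : Z2 ((4 : ℚ) ^ (l + 1) * c (l + 1) / 2) := by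
        rw [c, mul_sum, sum_div]
        refine Z2.sum _ _ (fun j _ => ?_)
        have h1 := (ih j j.2).1
        have h2 := four_pow (l + 1 - (j : ℕ)) (by omega)
        have h3 := ((Z2.neg_one_pow (l - (j : ℕ))).mul h1).mul h2
        have e : (4 : ℚ) ^ (l + 1) = 4 ^ (j : ℕ) * 4 ^ (l + 1 - (j : ℕ)) := by
          rw [← pow_add]
          congr 1
          omega
        rw [e]
        refine (congrArg Z2 ?_).mp h3
        ring
      refine ⟨?_, fun _ => h⟩
      have := h.mul Z2.two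
      rwa [div_mul_cancel₀ _ (by norm_num : (2 : ℚ) ≠ 0)] at this

/-- M4c (file Two.lean) -/
theorem c_two (l : ℕ) (hl : 1 ≤ l) : ∃ a b : ℤ, Odd b ∧ (4 : ℚ) ^ l * c l = 2 * a / b := by
  obtain ⟨a, b, hb, h⟩ := (c_two_aux l).2 hl
  refine ⟨a, b, hb, ?_⟩
  have : (4 : ℚ) ^ l * c l = (a : ℚ) / b * 2 := by
    rw [← h]; ring
  rw [this]
  ring

end Pool.Agent.GD71
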