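import Pool.Agent.GD71.Defs

/-! The logarithmic derivative recursion for the Taylor coefficients of the Gamma function at 1. -/

namespace Pool.Agent.GD71
open Finset Real Filter Topology Pool.Agent.Lib.GammaDerivs

/-- the derivatives of the digamma function on `(0, ∞)` -/
noncomputable def dpsi : ℕ → ℝ → ℝ
  | 0 => psi
  | j + 1 => fun x => (-1 : ℝ) ^ j * ((j + 1).factorial : ℝ) * T (j + 2) x

lemma hasDerivAt_dpsi (j : ℕ) {x : ℝ} (hx : 0 < x) : HasDerivAt (dpsi j) (dpsi (j + 1) x) x := by
  cases j with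
  | zero =>
    have h := hasDerivAt_psi hx
    simpa [dpsi] using h
  | succ j =>
    have h := (hasDerivAt_T (j + 2) (by omega) hx).const_mul ((-1 : ℝ) ^ j * ((j + 1).factorial : ℝ))
    refine h.congr_deriv ?_
    simp only [dpsi]
    rw [Nat.factorial_succ (j + 1)]
    push_cast
    ring

/-- the Leibniz sum -/
noncomputable def leib (i : ℕ) (x : ℝ) : ℝ :=
  ∑ ij ∈ antidiagonal i, (i.choose ij.1 : ℝ) * (dpsi ij.1 x * iteratedDeriv ij.2 Gamma x)

lemma hasDerivAt_iter (i : ℕ) : ∀ j ≤ i, ∀ x : ℝ, 0 < x →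
    HasDerivAt (iteratedDeriv j Gamma) (leib j x) x := by
  induction i with
  | zero =>
    intro j hj x hx
    obtain rfl : j = 0 := by omega
    have h := hasDerivAt_Gamma hx
    simpa [leib, dpsi, iteratedDeriv_zero] using h
  | succ i ih =>
    intro j hj x hx
    rcases Nat.lt_or_ge j (i + 1) with hji | hji
    · exact ih j (by omega) x hx
    obtain rfl : j = i + 1 := by omega
    have hG : ∀ b ≤ i, ∀ y : ℝ, 0 < y → iteratedDeriv (b + 1) Gamma y = leib b y := by
      intro b hb y hy
      rw [iteratedDeriv_succ, (ih b hb y hy).deriv]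
    have hev : iteratedDeriv (i + 1) Gamma =ᶠ[𝓝 x] leib i := by
      filter_upwards [Ioi_mem_nhds hx] with y hy
      exact hG i le_rfl y hy
    refine HasDerivAt.congr_of_eventuallyEq ?_ hev
    have hsum : HasDerivAt (leib i) (∑ ij ∈ antidiagonal i, (i.choose ij.1 : ℝ) *
        (dpsi (ij.1 + 1) x * iteratedDeriv ij.2 Gamma x +
          dpsi ij.1 x * iteratedDeriv (ij.2 + 1) Gamma x)) x := by
      unfold leib
      refine HasDerivAt.fun_sum ?_
      intro ij hij
      have hle : ij.2 ≤ i := by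
        have := mem_antidiagonal.1 hij
        omega
      rw [hG ij.2 hle x hx]
      exact ((hasDerivAt_dpsi ij.1 hx).fun_mul (ih ij.2 hle x hx)).const_mul _
    refine hsum.congr_deriv ?_
    unfold leib
    rw [Finset.sum_antidiagonal_choose_succ_mul
      (fun a b => dpsi a x * iteratedDeriv b Gamma x) i, ← Finset.sum_add_distrib]
    refine Finset.sum_congr rfl ?_
    intro ij hij
    have hs : ij.1 + ij.2 = i := mem_antidiagonal.1 hij
    have hc : i.choose ij.2 = i.choose ij.1 := by
      rw [← hs]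
      exact Nat.choose_symm_add.symm
    rw [hc]
    ring

lemma iter_succ (i : ℕ) : iteratedDeriv (i + 1) Gamma 1 = leib i 1 := by
  rw [iteratedDeriv_succ, (hasDerivAt_iter i i le_rfl 1 one_pos).deriv]

lemma dpsi_zero_one : dpsi 0 1 = -eulerMascheroniConstant := by
  have h := psi_nat 0
  simpa [dpsi, part] using h

lemma T_one_eq (j : ℕ) : T j 1 = zeta j := rfl

theorem g_succ (i : ℕ) : ((i : ℝ) + 1) * g (i + 1) = -Real.eulerMascheroniConstant * g i +
    ∑ j ∈ Finset.Icc 2 (i + 1), (-1 : ℝ) ^ j * zeta j * g (i + 1 - j) := by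
  have h1 : ((i : ℝ) + 1) * g (i + 1) =
      ∑ ij ∈ antidiagonal i, dpsi ij.1 1 / (ij.1.factorial : ℝ) * g ij.2 := by
    unfold g
    rw [iter_succ, leib, Nat.factorial_succ]
    have hf : ((i.factorial : ℕ) : ℝ) ≠ 0 := by positivity
    have hi : ((i : ℝ) + 1) ≠ 0 := by positivity
    have e1 : ∀ s : ℝ, ((i : ℝ) + 1) * (s / (((i + 1) * i.factorial : ℕ) : ℝ)) =
        s / (i.factorial : ℝ) := by
      intro s
      push_cast
      field_simp
    rw [e1, Finset.sum_div]
    refine Finset.sum_congr rfl ?_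
    intro ij hij
    have hs : ij.1 + ij.2 = i := mem_antidiagonal.1 hij
    have hc : ((i.choose ij.1 : ℕ) : ℝ) * (ij.1.factorial : ℝ) * (ij.2.factorial : ℝ) =
        (i.factorial : ℝ) := by
      have := Nat.choose_mul_factorial_mul_factorial (n := i) (k := ij.1) (by omega)
      rw [show i - ij.1 = ij.2 by omega] at this
      exact_mod_cast this
    have h1 : (ij.1.factorial : ℝ) ≠ 0 := by positivity
    have h2 : (ij.2.factorial : ℝ) ≠ 0 := by positivity
    rw [← hc]
    have h3 : ((i.choose ij.1 : ℕ) : ℝ) ≠ 0 := by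
      intro h0
      rw [h0] at hc
      apply hf
      rw [← hc]
      ring
    field_simp
  rw [h1, Finset.Nat.sum_antidiagonal_eq_sum_range_succ_mk, Finset.sum_range_succ']
  have h0 : dpsi 0 1 / ((0 : ℕ).factorial : ℝ) * g (i - 0) = -Real.eulerMascheroniConstant * g i := by
    rw [dpsi_zero_one]
    simp
  simp only [h0]
  rw [add_comm]
  congr 1
  rw [Finset.range_eq_Ico, Finset.sum_Ico_eq_sum_range]
  have hI : Finset.Icc 2 (i + 1) = Finset.Ico 2 (i + 2) := by
    ext a
    simp only [Finset.mem_Icc, Finset.mem_Ico]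
    omega
  rw [hI, Finset.sum_Ico_eq_sum_range]
  refine Finset.sum_congr (by simp) ?_
  intro a ha
  have hfac : (((a + 1).factorial : ℕ) : ℝ) ≠ 0 := by positivity
  have e2 : dpsi (0 + a + 1) 1 / (((0 + a + 1).factorial : ℕ) : ℝ) = (-1 : ℝ) ^ (2 + a) * zeta (2 + a) := by
    rw [zero_add]
    simp only [dpsi, T_one_eq]
    rw [show 2 + a = a + 2 by omega, pow_add]
    field_simp
  have e3 : i + 1 - (2 + a) = i - (0 + a + 1) := by omega
  rw [e2, e3]

end Pool.Agent.GD71
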