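import Pool.Agent.GD71.Alg
import Pool.Agent.GD71.Det
import Pool.Agent.GD71.Place
import Pool.Agent.GD71.Pos
import Pool.Agent.GD71.Refl
import Pool.Agent.GD71.Shift
import Pool.Agent.GD71.Two
import Pool.Agent.GD71.Zeta

/-! Assembly. -/

namespace Pool.Agent.GD71
open Finset

lemma g_zero : g 0 = 1 := by
  simp [g]

lemma mlt {Γ : Type*} [LinearOrderedCommGroupWithZero Γ] {a b : Γ} (ha : a ≤ 1) (hb : b < 1) :
    a * b < 1 := by
  rw [mul_comm]
  exact mul_lt_one_of_lt_of_le hb ha

lemma C_pos' (l : ℕ) : c l ≠ 0 := by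
  have h1 := C_pos_of g_succ l
  rw [C_eq] at h1
  intro h
  rw [h] at h1
  simp at h1

/-- `v (g i t ^ i) < 1` for the top indices. -/
lemma vanish (K : IntermediateField ℚ ℝ) (V : ValuationSubring ℝ) (t : ℝ)
    (hV : ∀ a : ℝ, IsAlgebraic K a → a ∈ V) (ht1 : V.valuation t < 1)
    (k r : ℕ) (hr : r < k) (hg : ∀ i ≤ k, V.valuation (g i * t ^ i) ≤ 1)
    (n : Fin (r + 1) → ℕ) (hn : StrictMono n)
    (hK : ∀ i, iteratedDeriv k Real.Gamma ((n i : ℝ) + 1) ∈ K) (l : ℕ) (hl : l ≤ r) :
    V.valuation (g (k - l) * t ^ (k - l)) < 1 := by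
  set v := V.valuation with hv
  obtain ⟨a, ha⟩ := exists_comb r n hn l hl
  set Q : ℕ → ℚ := fun j => ∑ i, a i * E (n i) j with hQ
  have hq1 : ∀ q : ℚ, v (q : ℝ) ≤ 1 := by
    intro q
    rw [hv, V.valuation_le_one_iff]
    exact hV _ (by
      have : (q : ℝ) = algebraMap K ℝ (q : K) := by simp
      rw [this]
      exact isAlgebraic_algebraMap _)
  have hpow : ∀ j : ℕ, 1 ≤ j → v (t ^ j) < 1 := by
    intro j hj
    rw [map_pow]
    exact pow_lt_one₀ zero_le ht1 (by omega)
  set A : ℝ := ∑ i, (a i : ℝ) * (iteratedDeriv k Real.Gamma ((n i : ℝ) + 1) / (k.factorial : ℝ)) with hA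
  have hAK : A ∈ K := by
    refine sum_mem fun i _ => mul_mem (SubfieldClass.ratCast_mem _ _) (div_mem (hK i) (natCast_mem _ _))
  have hAv : v A ≤ 1 := by
    rw [hv, V.valuation_le_one_iff]
    exact hV _ (by
      have : A = algebraMap K ℝ ⟨A, hAK⟩ := rfl
      rw [this]
      exact isAlgebraic_algebraMap _)
  have hfac : (k.factorial : ℝ) ≠ 0 := by positivity
  have hAsum : A = ∑ j ∈ range (k + 1), (Q j : ℝ) * g (k - j) := by
    rw [hA]
    have h1 : ∀ i, (a i : ℝ) * (iteratedDeriv k Real.Gamma ((n i : ℝ) + 1) / (k.factorial : ℝ)) =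
        ∑ j ∈ range (k + 1), (a i : ℝ) * ((E (n i) j : ℝ) * g (k - j)) := by
      intro i
      rw [shift, mul_div_cancel_left₀ _ hfac, Finset.mul_sum]
    simp_rw [h1]
    rw [Finset.sum_comm]
    refine Finset.sum_congr rfl fun j _ => ?_
    rw [hQ]
    push_cast
    rw [Finset.sum_mul]
    refine Finset.sum_congr rfl fun i _ => ?_
    ring
  have hlk : l ∈ range (k + 1) := Finset.mem_range.2 (by omega)
  have hQl : Q l = 1 := by
    have := ha l hl
    rw [if_pos rfl] at this
    exact this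
  rw [← Finset.add_sum_erase _ _ hlk, hQl, Rat.cast_one, one_mul] at hAsum
  have heq : g (k - l) * t ^ (k - l) = A * t ^ (k - l) -
      ∑ j ∈ (range (k + 1)).erase l, (Q j : ℝ) * g (k - j) * t ^ (k - l) := by
    rw [← Finset.sum_mul, hAsum]
    ring
  rw [heq]
  refine lt_of_le_of_lt (Valuation.map_sub v _ _) (max_lt ?_ ?_)
  · rw [map_mul]
    exact mlt hAv (hpow _ (by omega))
  · refine Valuation.map_sum_lt v one_ne_zero fun j hj => ?_
    rw [Finset.mem_erase, Finset.mem_range] at hj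
    rcases le_or_gt j r with h1 | h1
    · have h2 : Q j = 0 := by
        have := ha j h1
        rw [if_neg hj.1] at this
        exact this
      rw [h2]
      simp
    · have h3 : t ^ (k - l) = t ^ (k - j) * t ^ (j - l) := by
        rw [← pow_add]
        congr 1
        omega
      have h4 : (Q j : ℝ) * g (k - j) * t ^ (k - l) =
          (Q j : ℝ) * (g (k - j) * t ^ (k - j)) * t ^ (j - l) := by
        rw [h3]; ring
      rw [h4, map_mul, map_mul]
      refine mlt ?_ (hpow _ (by omega))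
      exact mul_le_one' (hq1 _) (hg _ (by omega))

/-- the core: everything is algebraic over `K` -/
lemma core (K : IntermediateField ℚ ℝ) (k r : ℕ) (hk : 2 ≤ k)
    (n : Fin (r + 1) → ℕ) (hn : StrictMono n)
    (hK : ∀ i, iteratedDeriv k Real.Gamma ((n i : ℝ) + 1) ∈ K)
    (hor : r = (k + 1) / 2 ∨ (r + 1 = (k + 1) / 2 ∧ g 1 ∈ K)) :
    IsAlgebraic K Real.pi ∧ ∀ i, 1 ≤ i → i ≤ k → IsAlgebraic K (g i) := by
  classical
  by_contra hcon
  set x : Fin (k + 1) → ℝ := fun i => if (i : ℕ) = 0 then Real.pi else g i with hx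
  set w : Fin (k + 1) → ℕ := fun i => if (i : ℕ) = 0 then 1 else (i : ℕ) with hw
  have hw0 : ∀ i, 0 < w i := by
    intro i
    simp only [hw]
    split_ifs <;> omega
  have hex : ∃ i, ¬ IsAlgebraic K (x i) := by
    by_contra h
    push Not at h
    refine hcon ⟨?_, fun i hi1 hi2 => ?_⟩
    · have := h ⟨0, by omega⟩
      simpa [hx] using this
    · have := h ⟨i, by omega⟩
      simp only [hx] at this
      rwa [if_neg (by omega)] at this
  obtain ⟨V, t, hV, htV, ht1, ht0, hmem, hunit⟩ := exists_place K x w hw0 hex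
  set v := V.valuation with hv
  have hgV : ∀ i ≤ k, g i * t ^ i ∈ V := by
    intro i hi
    rcases Nat.eq_zero_or_pos i with h1 | h1
    · subst h1
      rw [g_zero, pow_zero, mul_one]
      exact one_mem V
    · have := hmem ⟨i, by omega⟩
      simp only [hx, hw] at this
      rwa [if_neg (by omega), if_neg (by omega)] at this
  have hpV : Real.pi * t ∈ V := by
    have := hmem ⟨0, by omega⟩
    simpa [hx, hw] using this
  have hgv : ∀ i ≤ k, v (g i * t ^ i) ≤ 1 := by
    intro i hi
    rw [hv, V.valuation_le_one_iff]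
    exact hgV i hi
  have hrk : r < k := by
    rcases hor with h | h <;> omega
  have hvan := vanish K V t hV ht1 k r hrk hgv n hn hK
  -- the residue field
  set ρ : V →+* IsLocalRing.ResidueField V := IsLocalRing.residue V with hρ
  have hρ0 : ∀ a : V, ρ a = 0 ↔ v (a : ℝ) < 1 := by
    intro a
    rw [hρ, IsLocalRing.residue_eq_zero_iff, ValuationSubring.valuation_lt_one_iff]
  have hchar : CharZero (IsLocalRing.ResidueField V) := by
    refine charZero_of_inj_zero fun m hm => ?_
    by_contra hm0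
    have h1 : ρ ((m : ℕ) : V) = 0 := by rw [map_natCast]; exact hm
    rw [hρ0] at h1
    have h2 : v ((m : ℝ)⁻¹) ≤ 1 := by
      rw [hv, V.valuation_le_one_iff]
      refine hV _ ?_
      have : ((m : ℝ)⁻¹) = algebraMap K ℝ ((m : K)⁻¹) := by simp
      rw [this]
      exact isAlgebraic_algebraMap _
    have h3 : v (((m : V) : ℝ) * (m : ℝ)⁻¹) = 1 := by
      have : ((m : V) : ℝ) = (m : ℝ) := by simp
      rw [this, mul_inv_cancel₀ (by exact_mod_cast hm0), map_one]
    rw [map_mul] at h3
    have h4 := mul_lt_one_of_lt_of_le h1 h2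
    rw [h3] at h4
    exact lt_irrefl _ h4
  set G : ℕ → V := fun i => if h : g i * t ^ i ∈ V then ⟨g i * t ^ i, h⟩ else 0 with hG
  have hGval : ∀ i ≤ k, (G i : ℝ) = g i * t ^ i := by
    intro i hi
    simp only [hG]
    rw [dif_pos (hgV i hi)]
  set p : V := ⟨Real.pi * t, hpV⟩ with hp
  have hκk : 2 * (k / 2) ≤ k := by omega
  have hrat : ∀ q : ℚ, ∃ a : V, (a : ℝ) = (q : ℝ) ∧ ρ a = (q : IsLocalRing.ResidueField V) := by
    intro q
    have hqV : ∀ q : ℚ, (q : ℝ) ∈ V := by
      intro q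
      refine hV _ ?_
      have : (q : ℝ) = algebraMap K ℝ (q : K) := by simp
      rw [this]
      exact isAlgebraic_algebraMap _
    refine ⟨⟨(q : ℝ), hqV q⟩, rfl, ?_⟩
    have hd : (q.den : IsLocalRing.ResidueField V) ≠ 0 := Nat.cast_ne_zero.2 q.den_nz
    have h1 : (⟨(q : ℝ), hqV q⟩ : V) * ((q.den : ℕ) : V) = ((q.num : ℤ) : V) := by
      apply Subtype.ext
      push_cast
      have := Rat.mul_den_eq_num q
      exact_mod_cast this
    have h2 := congrArg ρ h1
    rw [map_mul, map_natCast, map_intCast] at h2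
    have h3 : (q : IsLocalRing.ResidueField V) = (q.num : IsLocalRing.ResidueField V) / q.den := by
      exact Rat.cast_def q
    rw [h3, eq_div_iff hd]
    exact h2
  have halg := alg (k / 2) (by omega) c (by rw [c]) (by rw [c]; simp [c, Nat.factorial]) C_pos'
    c_two (fun i => ρ (G i)) (ρ p) ?_ ?_ ?_ ?_
  · -- all residues vanish
    obtain ⟨hp0, hh⟩ := halg
    have hall : ∀ i, 1 ≤ i → i ≤ k → v (g i * t ^ i) < 1 := by
      intro i hi1 hi2
      rcases le_or_gt i (k / 2) with h1 | h1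
      · have := hh i hi1 h1
        rw [hρ0, hGval i hi2] at this
        exact this
      · have := hvan (k - i) (by rcases hor with h | h <;> omega)
        rwa [show k - (k - i) = i by omega] at this
    obtain ⟨i, hi⟩ := hunit
    simp only [hx, hw] at hi
    rcases Nat.eq_zero_or_pos (i : ℕ) with h1 | h1
    · rw [if_pos h1, if_pos h1, pow_one] at hi
      have h2 : v (p : ℝ) < 1 := (hρ0 p).1 hp0
      rw [hp] at h2
      simp only at h2
      rw [hi] at h2
      exact lt_irrefl _ h2
    · rw [if_neg (by omega), if_neg (by omega)] at hi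
      have h2 := hall i h1 (by omega)
      rw [hi] at h2
      exact lt_irrefl _ h2
  · -- h 0 = 1
    have h1 : G 0 = 1 := by
      apply Subtype.ext
      rw [hGval 0 (by omega), g_zero]
      simp
    simp only [h1, map_one]
  · -- the relations
    intro l hl
    obtain ⟨a, ha1, ha2⟩ := hrat (c l)
    have h1 : ∑ i ∈ range (2 * l + 1), (-1 : V) ^ i * G i * G (2 * l - i) = a * p ^ (2 * l) := by
      apply Subtype.ext
      push_cast
      rw [ha1, hp]
      have h2 := C_eq l
      rw [C] at h2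
      have h3 : ((c l : ℝ) * (Real.pi * t) ^ (2 * l)) = ((c l : ℝ) * Real.pi ^ (2 * l)) * t ^ (2 * l) := by
        rw [mul_pow]; ring
      simp only
      rw [h3, ← h2, Finset.sum_mul]
      refine Finset.sum_congr rfl fun i hi => ?_
      rw [Finset.mem_range] at hi
      rw [hGval i (by omega), hGval (2 * l - i) (by omega)]
      have h4 : t ^ (2 * l) = t ^ i * t ^ (2 * l - i) := by
        rw [← pow_add]
        congr 1
        omega
      rw [h4]
      ring
    have h2 := congrArg ρ h1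
    rw [map_sum, map_mul, map_pow, ha2] at h2
    rw [← h2]
    refine Finset.sum_congr rfl fun i _ => ?_
    rw [map_mul, map_mul, map_pow, map_neg, map_one]
  · -- vanishing
    intro i hi1 hi2
    rw [hρ0, hGval i (by omega)]
    have := hvan (k - i) (by rcases hor with h | h <;> omega)
    rwa [show k - (k - i) = i by omega] at this
  · rcases hor with h | h
    · left
      rw [hρ0, hGval _ (by omega)]
      have := hvan (k - k / 2) (by omega)
      rwa [show k - (k - k / 2) = k / 2 by omega] at this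
    · right
      rw [hρ0, hGval 1 (by omega), pow_one, map_mul]
      refine mlt ?_ ht1
      rw [hv, V.valuation_le_one_iff]
      refine hV _ ?_
      have : g 1 = algebraMap K ℝ ⟨g 1, h.2⟩ := rfl
      rw [this]
      exact isAlgebraic_algebraMap _

/-- all the constants are algebraic over `K` -/
lemma constants (K : IntermediateField ℚ ℝ) (k : ℕ) (hk : 2 ≤ k)
    (hg : ∀ i, 1 ≤ i → i ≤ k → IsAlgebraic K (g i)) :
    IsAlgebraic K Real.eulerMascheroniConstant ∧ ∀ j, 2 ≤ j → j ≤ k → IsAlgebraic K (zeta j) := by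
  have hgL : ∀ i ≤ k, g i ∈ algebraicClosure K ℝ := by
    intro i hi
    rcases Nat.eq_zero_or_pos i with h1 | h1
    · rw [h1, g_zero]; exact one_mem _
    · exact mem_algebraicClosure_iff.2 (hg i h1 hi)
  have hγ : Real.eulerMascheroniConstant ∈ algebraicClosure K ℝ := by
    have h1 := g_succ 0
    simp only [Nat.cast_zero, zero_add, one_mul, g_zero, mul_one] at h1
    rw [Finset.Icc_eq_empty (by norm_num), Finset.sum_empty, add_zero] at h1
    have h2 : Real.eulerMascheroniConstant = -g 1 := by linarith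
    rw [h2]
    exact neg_mem (hgL 1 (by omega))
  refine ⟨mem_algebraicClosure_iff.1 hγ, fun j hj1 hj2 => mem_algebraicClosure_iff.1 ?_⟩
  induction j using Nat.strong_induction_on with
  | _ j ih =>
    obtain ⟨i, rfl⟩ : ∃ i, j = i + 1 := ⟨j - 1, by omega⟩
    have h1 := g_succ i
    have h2 : i + 1 ∈ Finset.Icc 2 (i + 1) := Finset.mem_Icc.2 ⟨hj1, le_rfl⟩
    rw [← Finset.add_sum_erase _ _ h2, Nat.sub_self, g_zero, mul_one] at h1
    have h3 : zeta (i + 1) = (-1 : ℝ) ^ (i + 1) * (((i : ℝ) + 1) * g (i + 1) +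
        Real.eulerMascheroniConstant * g i -
        ∑ x ∈ (Finset.Icc 2 (i + 1)).erase (i + 1), (-1 : ℝ) ^ x * zeta x * g (i + 1 - x)) := by
      have h4 : (-1 : ℝ) ^ (i + 1) * (-1 : ℝ) ^ (i + 1) = 1 := by
        rw [← mul_pow]; norm_num
      linear_combination (-(-1 : ℝ) ^ (i + 1)) * h1 - (zeta (i + 1)) * h4
    rw [h3]
    have hneg : ∀ n : ℕ, ((-1 : ℝ) ^ n) ∈ algebraicClosure K ℝ := fun n =>
      pow_mem (neg_mem (one_mem _)) n
    refine mul_mem (hneg _) (sub_mem (add_mem (mul_mem ?_ (hgL _ hj2)) (mul_mem hγ (hgL _ (by omega))))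
      (sum_mem fun x hx => ?_))
    · exact add_mem (natCast_mem _ i) (one_mem _)
    · rw [Finset.mem_erase, Finset.mem_Icc] at hx
      exact mul_mem (mul_mem (hneg _) (ih x (by omega) hx.2.1 (by omega))) (hgL _ (by omega))

/-- The list `γ, Γ⁽ᵏ⁾(1), Γ⁽ᵏ⁾(2), …`. -/
noncomputable def number (k : ℕ) : ℕ → ℝ
  | 0 => Real.eulerMascheroniConstant
  | n + 1 => iteratedDeriv k Real.Gamma ((n : ℝ) + 1)

lemma exists_core (k : ℕ) (hk : 2 ≤ k) (s : Finset ℕ) (hs : (k + 1) / 2 < s.card) :
    IsAlgebraic (IntermediateField.adjoin ℚ (number k '' (s : Set ℕ))) Real.pi ∧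
    ∀ i, 1 ≤ i → i ≤ k → IsAlgebraic (IntermediateField.adjoin ℚ (number k '' (s : Set ℕ))) (g i) := by
  classical
  set K := IntermediateField.adjoin ℚ (number k '' (s : Set ℕ)) with hK
  have hmem : ∀ i ∈ s, number k i ∈ K := by
    intro i hi
    exact IntermediateField.subset_adjoin ℚ _ ⟨i, hi, rfl⟩
  -- a strictly increasing enumeration of part of `s.erase 0`
  have enum : ∀ r : ℕ, r + 1 ≤ (s.erase 0).card → ∃ n : Fin (r + 1) → ℕ, StrictMono n ∧
      ∀ i, iteratedDeriv k Real.Gamma ((n i : ℝ) + 1) ∈ K := by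
    intro r hr
    obtain ⟨u, hu, hcard⟩ := Finset.exists_subset_card_eq hr
    have hpos : ∀ i, 1 ≤ u.orderEmbOfFin hcard i := by
      intro i
      have h1 := hu (u.orderEmbOfFin_mem hcard i)
      have h2 := (Finset.mem_erase.1 h1).1
      omega
    refine ⟨fun i => u.orderEmbOfFin hcard i - 1, fun i j hij => ?_, fun i => ?_⟩
    · have h1 : u.orderEmbOfFin hcard i < u.orderEmbOfFin hcard j :=
        (u.orderEmbOfFin hcard).strictMono hij
      have h2 := hpos i
      show u.orderEmbOfFin hcard i - 1 < u.orderEmbOfFin hcard j - 1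
      omega
    · have h1 := hu (u.orderEmbOfFin_mem hcard i)
      have h2 := hmem _ (Finset.mem_erase.1 h1).2
      have h3 : u.orderEmbOfFin hcard i = (u.orderEmbOfFin hcard i - 1) + 1 := by
        have := hpos i
        omega
      rw [h3] at h2
      exact h2
  by_cases h0 : 0 ∈ s
  · have hc : (s.erase 0).card = s.card - 1 := Finset.card_erase_of_mem h0
    have hm : 1 ≤ (k + 1) / 2 := by omega
    obtain ⟨n, hn, hnK⟩ := enum ((k + 1) / 2 - 1) (by omega)
    refine core K k ((k + 1) / 2 - 1) hk n hn hnK (Or.inr ⟨by omega, ?_⟩)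
    have h1 := g_succ 0
    simp only [Nat.cast_zero, zero_add, one_mul, g_zero, mul_one] at h1
    rw [Finset.Icc_eq_empty (by norm_num), Finset.sum_empty, add_zero] at h1
    rw [h1]
    exact neg_mem (hmem 0 h0)
  · have hc : (s.erase 0).card = s.card := by rw [Finset.erase_eq_of_notMem h0]
    obtain ⟨n, hn, hnK⟩ := enum ((k + 1) / 2) (by omega)
    exact core K k ((k + 1) / 2) hk n hn hnK (Or.inl rfl)

theorem main (k : ℕ) (hk : 2 ≤ k) (s : Finset ℕ) (hs : (k + 1) / 2 < s.card) (x : ℝ)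
    (hx : x = Real.eulerMascheroniConstant ∨ x = Real.pi ∨ ∃ j, 2 ≤ j ∧ j ≤ k ∧ x = zeta j) :
    IsAlgebraic (IntermediateField.adjoin ℚ (number k '' (s : Set ℕ))) x := by
  obtain ⟨h1, h2⟩ := exists_core k hk s hs
  obtain ⟨h3, h4⟩ := constants _ k hk h2
  rcases hx with rfl | rfl | ⟨j, hj1, hj2, rfl⟩
  · exact h3
  · exact h1
  · exact h4 j hj1 hj2

end Pool.Agent.GD71
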