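import Mathlib
import Pool.Agent.Lib.PiTranscendental

/-! A set of real numbers over which `π` is algebraic contains a transcendental number. -/

namespace Pool.Agent.GD71

theorem exists_transcendental {S : Set ℝ}
    (h : IsAlgebraic (IntermediateField.adjoin ℚ S) Real.pi) : ∃ x ∈ S, Transcendental ℚ x := by
  by_contra hcon
  push Not at hcon
  have h1 : ∀ x ∈ S, IsIntegral ℚ x := by
    intro x hx
    have := hcon x hx
    rw [Transcendental, not_not] at this
    exact this.isIntegral
  have h2 : Algebra.IsAlgebraic ℚ (IntermediateField.adjoin ℚ S) :=
    IntermediateField.isAlgebraic_adjoin h1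
  exact Pool.Agent.Lib.PiTranscendental.transcendental_real_pi (IsAlgebraic.restrictScalars ℚ h)

end Pool.Agent.GD71
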